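import Mathlib

/-!
# Combinatorial lemmas
-/

set_option autoImplicit false

namespace Pool.Agent.OST

open Finset Real
open scoped Pointwise

variable {G : Type} [AddCommGroup G] [DecidableEq G]

/-- `A'` = the `a ∈ A` with `#{D ∈ B | a + D ∈ Z} > |B| / 2`; by averaging `|A'| ≥ |A| / 4`
(`5/8 |A| ≤ |A'| + (|A| - |A'|) / 2`).  Let `S ⊆ A'` be a maximal subset such that the
sets `a + B`, `a ∈ S`, are disjoint: `|S| |B| / 2 ≤ |Z|`, and every `a ∈ A'` is
`s + D - D'` with `s ∈ S`, `D, D' ∈ B`; so `A' + B ⊆ S + B3` and `|A' + B| ≤ |S| |B3|`. -/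
theorem disjoint2 (A B Z B3 : Finset G) (hB : B.Nonempty)
    (h3 : ∀ x ∈ B, ∀ y ∈ B, ∀ z ∈ B, x - y + z ∈ B3)
    (h : 5 / 8 * ((A.card : ℝ) * B.card) ≤
        ∑ a ∈ A, ((B.filter fun D => a + D ∈ Z).card : ℝ)) :
    ∃ A' ⊆ A, (A.card : ℝ) ≤ 4 * A'.card ∧
      ((A' + B).card : ℝ) * B.card ≤ 2 * Z.card * B3.card := by
  classical
  have hb0 : (0 : ℝ) < B.card := by exact_mod_cast hB.card_pos
  set F : G → Finset G := fun a => B.filter fun D => a + D ∈ Z with hF
  set A' := A.filter (fun a => (B.card : ℝ) / 2 ≤ (F a).card) with hA'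
  have hsize : (A.card : ℝ) ≤ 4 * A'.card := by
    have h1 : ∑ a ∈ A, ((F a).card : ℝ) ≤ A'.card * B.card +
        ((A.filter (fun a => ¬ (B.card : ℝ) / 2 ≤ (F a).card)).card : ℝ) * (B.card / 2) := by
      rw [← Finset.sum_filter_add_sum_filter_not A (fun a => (B.card : ℝ) / 2 ≤ (F a).card)]
      refine add_le_add ?_ ?_
      · have : ∑ a ∈ A', ((F a).card : ℝ) ≤ ∑ a ∈ A', (B.card : ℝ) := by
          refine Finset.sum_le_sum fun a _ => ?_
          have : (F a).card ≤ B.card := Finset.card_le_card (Finset.filter_subset _ _)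
          exact_mod_cast this
        rwa [Finset.sum_const, nsmul_eq_mul] at this
      · have : ∑ a ∈ A.filter (fun a => ¬ (B.card : ℝ) / 2 ≤ (F a).card), ((F a).card : ℝ) ≤
            ∑ a ∈ A.filter (fun a => ¬ (B.card : ℝ) / 2 ≤ (F a).card), ((B.card : ℝ) / 2) := by
          refine Finset.sum_le_sum fun a ha => ?_
          exact (not_le.1 (Finset.mem_filter.1 ha).2).le
        rwa [Finset.sum_const, nsmul_eq_mul] at this
    have h2 : (A'.card : ℝ) +
        ((A.filter (fun a => ¬ (B.card : ℝ) / 2 ≤ (F a).card)).card : ℝ) = A.card := by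
      exact_mod_cast Finset.card_filter_add_card_filter_not
        (s := A) (fun a => (B.card : ℝ) / 2 ≤ (F a).card)
    have h4 := h.trans h1
    have h5 : ((A.filter (fun a => ¬ (B.card : ℝ) / 2 ≤ (F a).card)).card : ℝ) =
        A.card - A'.card := by linarith
    rw [h5] at h4
    have h6 : (A.card : ℝ) * B.card ≤ (4 * A'.card) * B.card := by linarith
    exact le_of_mul_le_mul_right h6 hb0
  refine ⟨A', Finset.filter_subset _ _, hsize, ?_⟩
  -- maximal disjoint subfamily
  let D : Finset G → Prop := fun S => ∀ a ∈ S, ∀ b ∈ S, a ≠ b → ∀ x ∈ B, ∀ y ∈ B,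
    a + x ≠ b + y
  obtain ⟨M, hM, hmax⟩ := Finset.exists_max_image (A'.powerset.filter D) Finset.card
    ⟨∅, Finset.mem_filter.2 ⟨Finset.mem_powerset.2 (Finset.empty_subset _),
      fun a ha => absurd ha (Finset.notMem_empty a)⟩⟩
  have hMA : M ⊆ A' := Finset.mem_powerset.1 (Finset.mem_filter.1 hM).1
  have hMD : D M := (Finset.mem_filter.1 hM).2
  have hmeet : ∀ a ∈ A', ∃ b ∈ M, ∃ x ∈ B, ∃ y ∈ B, a + x = b + y := by
    intro a ha
    by_cases haM : a ∈ M
    · obtain ⟨x, hx⟩ := hB
      exact ⟨a, haM, x, hx, x, hx, rfl⟩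
    · by_contra hcon
      push Not at hcon
      have hD : D (insert a M) := by
        intro x hx y hy hxy j hj j' hj'
        rcases Finset.mem_insert.1 hx with hx1 | hx1
        · rcases Finset.mem_insert.1 hy with hy1 | hy1
          · exact absurd (hx1.trans hy1.symm) hxy
          · rw [hx1]
            exact hcon y hy1 j hj j' hj'
        · rcases Finset.mem_insert.1 hy with hy1 | hy1
          · rw [hy1]
            exact fun h => hcon x hx1 j' hj' j hj h.symm
          · exact hMD x hx1 y hy1 hxy j hj j' hj'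
      have := hmax (insert a M) (Finset.mem_filter.2 ⟨Finset.mem_powerset.2
        (Finset.insert_subset ha hMA), hD⟩)
      rw [Finset.card_insert_of_notMem haM] at this
      omega
  -- M is small
  have hMZ : (M.card : ℝ) * (B.card / 2) ≤ Z.card := by
    set T : G → Finset G := fun a => (F a).image fun x => a + x with hT
    have hTcard : ∀ a, (T a).card = (F a).card := by
      intro a
      exact Finset.card_image_of_injective _ (add_right_injective a)
    have hdis : (M : Set G).PairwiseDisjoint T := by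
      intro a ha b hb hab
      change Disjoint (T a) (T b)
      rw [Finset.disjoint_left]
      intro z hz hz'
      obtain ⟨j, hj, rfl⟩ := Finset.mem_image.1 hz
      obtain ⟨j', hj', h'⟩ := Finset.mem_image.1 hz'
      exact hMD a ha b hb hab j (Finset.mem_filter.1 hj).1 j' (Finset.mem_filter.1 hj').1 h'.symm
    have hsub : M.biUnion T ⊆ Z := by
      intro z hz
      obtain ⟨a, _, hz⟩ := Finset.mem_biUnion.1 hz
      obtain ⟨j, hj, rfl⟩ := Finset.mem_image.1 hz
      exact (Finset.mem_filter.1 hj).2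
    have h1 : (∑ a ∈ M, (F a).card : ℕ) ≤ Z.card := by
      rw [← Finset.sum_congr rfl fun a _ => hTcard a, ← Finset.card_biUnion hdis]
      exact Finset.card_le_card hsub
    have h2 : (M.card : ℝ) * (B.card / 2) ≤ ∑ a ∈ M, ((F a).card : ℝ) := by
      rw [← nsmul_eq_mul, ← Finset.sum_const]
      exact Finset.sum_le_sum fun a ha => (Finset.mem_filter.1 (hMA ha)).2
    exact h2.trans (by exact_mod_cast h1)
  -- the sumset
  have hsub : A' + B ⊆ M + B3 := by
    intro z hz
    obtain ⟨a, ha, y, hy, rfl⟩ := Finset.mem_add.1 hz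
    obtain ⟨b, hb, x, hx, x', hx', hab⟩ := hmeet a ha
    refine Finset.mem_add.2 ⟨b, hb, x' - x + y, h3 x' hx' x hx y hy, ?_⟩
    have h2 : a = b + x' - x := by rw [← hab]; abel
    rw [h2]
    abel
  have h1 : (A' + B).card ≤ M.card * B3.card :=
    (Finset.card_le_card hsub).trans Finset.card_add_le
  have h2 : ((A' + B).card : ℝ) ≤ M.card * B3.card := by exact_mod_cast h1
  have h4 : (M.card : ℝ) * B.card ≤ 2 * Z.card := by linarith
  calc ((A' + B).card : ℝ) * B.card ≤ (M.card * B3.card) * B.card :=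
        mul_le_mul_of_nonneg_right h2 hb0.le
    _ = (M.card * B.card) * B3.card := by ring
    _ ≤ 2 * Z.card * B3.card := mul_le_mul_of_nonneg_right h4 (Nat.cast_nonneg _)

/-- Ruzsa triangle inequality `|A + B| |A'| ≤ |A - A'| |A' + B|` (Mathlib:
`Finset.ruzsa_triangle_inequality_...`, a version with these signs), `|A - A'| ≤ |A - A|`. -/
theorem triangle2 (A A' B : Finset G) (hA : A.Nonempty) (hA' : A' ⊆ A) {k E : ℝ} (hE : 0 ≤ E)
    (h4 : (A.card : ℝ) ≤ 4 * A'.card)
    (hAA' : ((A - A).card : ℝ) ≤ exp (2 * k) * A.card)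
    (hE1 : ((A' + B).card : ℝ) ≤ E * A.card) :
    ((A + B).card : ℝ) ≤ 4 * E * exp (2 * k) * A.card := by
  have ha0 : (0 : ℝ) < A.card := by exact_mod_cast hA.card_pos
  have h1 := Finset.ruzsa_triangle_inequality_add_sub_add A A' B
  have h2 : (A' - A).card ≤ (A - A).card :=
    Finset.card_le_card (Finset.sub_subset_sub hA' subset_rfl)
  have h3 : (A'.card : ℝ) * (A + B).card ≤ (A' - A).card * (A' + B).card := by exact_mod_cast h1
  have h5 : ((A' - A).card : ℝ) ≤ exp (2 * k) * A.card :=
    le_trans (by exact_mod_cast h2) hAA'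
  have h6 : ((A' - A).card : ℝ) * (A' + B).card ≤ (exp (2 * k) * A.card) * (E * A.card) :=
    mul_le_mul h5 hE1 (Nat.cast_nonneg _) (by positivity)
  have h7 : (A.card : ℝ) * (A + B).card ≤ (4 * A'.card) * (A + B).card :=
    mul_le_mul_of_nonneg_right h4 (Nat.cast_nonneg _)
  have h8 : ((A + B).card : ℝ) * A.card ≤ (4 * E * exp (2 * k) * A.card) * A.card := by
    nlinarith
  exact le_of_mul_le_mul_right h8 ha0

end Pool.Agent.OST
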