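import Mathlib

/-!
# Combinatorial lemmas
-/

set_option autoImplicit false

namespace Pool.Agent.OST

open Finset Real
open scoped Pointwise

variable {G : Type} [AddCommGroup G] [DecidableEq G]

/-- Cauchy-Schwarz: `Finset.le_card_mul_addEnergy` gives `|A|² |B|² ≤ |A + B| E(A, B)`, and
`E(A, B) ≤ |B2 ∩ (A - A)| |A| |B|`, since a quadruple `a + D = a' + D'` is determined by
`x = D' - D = a - a' ∈ B2 ∩ (A - A)`, `a'` and `D`. -/
theorem many_common (A B B2 : Finset G) (hA : A.Nonempty) (hB : B.Nonempty)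
    (h : ∀ x ∈ B, ∀ y ∈ B, x - y ∈ B2) :
    (A.card : ℝ) * B.card ≤ ((B2 ∩ (A - A)).card : ℝ) * (A + B).card := by
  have h1 : (A.card ^ 2 * B.card ^ 2 : ℕ) ≤ (A + B).card * Finset.addEnergy A B :=
    Finset.le_card_add_mul_addEnergy A B
  have h2 : Finset.addEnergy A B ≤ ((B2 ∩ (A - A)) ×ˢ (A ×ˢ B)).card := by
    rw [Finset.addEnergy]
    refine Finset.card_le_card_of_injOn
      (fun x : (G × G) × (G × G) => (x.1.1 - x.1.2, x.1.2, x.2.1)) ?_ ?_
    · rintro ⟨⟨a, a'⟩, ⟨b, b'⟩⟩ hx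
      simp only [Finset.coe_filter, Finset.mem_product, Set.mem_ofPred_eq] at hx
      obtain ⟨⟨⟨ha, ha'⟩, hb, hb'⟩, he⟩ := hx
      simp only [Finset.coe_product, Set.mem_prod, Finset.mem_coe, Finset.mem_inter]
      have e : a - a' = b' - b := by
        rw [sub_eq_sub_iff_add_eq_add, he, add_comm]
      refine ⟨⟨?_, Finset.sub_mem_sub ha ha'⟩, ha', hb⟩
      rw [e]
      exact h b' hb' b hb
    · rintro ⟨⟨a, a'⟩, ⟨b, b'⟩⟩ hx ⟨⟨c, c'⟩, ⟨d, d'⟩⟩ hy hxy
      simp only [Finset.coe_filter, Finset.mem_product, Set.mem_ofPred_eq] at hx hy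
      simp only [Prod.mk.injEq] at hxy
      obtain ⟨e1, e2, e3⟩ := hxy
      subst e2
      subst e3
      have e4 : a = c := sub_left_injective e1
      subst e4
      have e5 : b' = d' := by
        have h3 := hx.2.symm.trans hy.2
        exact add_left_cancel h3
      rw [e5]
  rw [Finset.card_product, Finset.card_product] at h2
  have h3 : A.card ^ 2 * B.card ^ 2 ≤
      (A + B).card * ((B2 ∩ (A - A)).card * (A.card * B.card)) :=
    h1.trans (Nat.mul_le_mul_left _ h2)
  have h4 : 0 < A.card * B.card := Nat.mul_pos hA.card_pos hB.card_pos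
  have h5 : (A.card * B.card) * (A.card * B.card) ≤
      ((B2 ∩ (A - A)).card * (A + B).card) * (A.card * B.card) := by
    calc (A.card * B.card) * (A.card * B.card) = A.card ^ 2 * B.card ^ 2 := by ring
      _ ≤ (A + B).card * ((B2 ∩ (A - A)).card * (A.card * B.card)) := h3
      _ = _ := by ring
  have h6 := Nat.le_of_mul_le_mul_right h5 h4
  exact_mod_cast h6

omit [DecidableEq G] in
theorem CombB_sum (B : ℕ → Finset G) (h0 : ∀ i, (0 : G) ∈ B i)
    (hadd : ∀ i, ∀ x ∈ B (i + 1), ∀ y ∈ B (i + 1), x + y ∈ B i) {ι : Type} [DecidableEq ι]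
    (m : ℕ) : ∀ (i : ℕ) (s : Finset ι) (f : ι → G), s.card ≤ 2 ^ m →
      (∀ j ∈ s, f j ∈ B (i + m)) → ∑ j ∈ s, f j ∈ B i := by
  induction m with
  | zero =>
    intro i s f hs hf
    rw [pow_zero] at hs
    rcases s.eq_empty_or_nonempty with rfl | hne
    · rw [Finset.sum_empty]
      exact h0 i
    · obtain ⟨a, rfl⟩ := Finset.card_eq_one.1 (le_antisymm hs hne.card_pos)
      rw [Finset.sum_singleton]
      exact hf a (Finset.mem_singleton_self a)
  | succ m ih =>
    intro i s f hs hf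
    obtain ⟨t, hts, htc⟩ := Finset.exists_subset_card_eq (min_le_right (2 ^ m) s.card)
    have h1 : t.card ≤ 2 ^ m := htc.le.trans (min_le_left _ _)
    have h2 : (s \ t).card ≤ 2 ^ m := by
      rw [Finset.card_sdiff_of_subset hts, htc]
      rw [pow_succ] at hs
      rcases le_total (2 ^ m) s.card with h | h
      · rw [min_eq_left h]
        omega
      · rw [min_eq_right h, Nat.sub_self]
        exact Nat.zero_le _
    rw [← Finset.sum_sdiff hts]
    have e : i + (m + 1) = i + 1 + m := by omega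
    rw [e] at hf
    exact hadd i _ (ih (i + 1) (s \ t) f h2 fun j hj => hf j (Finset.mem_sdiff.1 hj).1) _
      (ih (i + 1) t f h1 fun j hj => hf j (hts hj))

/-- A sum of `2 ^ m` elements of `B (i + m)` is in `B i` (induction on `m`, splitting
`Fin (2 ^ (m + 1))` in two halves, or over multisets/lists), hence so is a difference of two sums
of `l ≤ 2 ^ m` elements of `B (i + m + 1)`. -/
theorem sum_mem_system (B : ℕ → Finset G) (h0 : ∀ i, (0 : G) ∈ B i)
    (hneg : ∀ i, ∀ x ∈ B i, -x ∈ B i)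
    (hadd : ∀ i, ∀ x ∈ B (i + 1), ∀ y ∈ B (i + 1), x + y ∈ B i) (m i l : ℕ) (hl : l ≤ 2 ^ m)
    (f g : Fin l → G) (hf : ∀ j, f j ∈ B (i + m + 1)) (hg : ∀ j, g j ∈ B (i + m + 1)) :
    ∑ j, f j - ∑ j, g j ∈ B i := by
  have hc : (Finset.univ : Finset (Fin l)).card ≤ 2 ^ m := by
    rw [Finset.card_univ, Fintype.card_fin]
    exact hl
  have e : i + m + 1 = i + 1 + m := by omega
  rw [e] at hf hg
  rw [sub_eq_add_neg]
  exact hadd i _ (CombB_sum B h0 hadd m (i + 1) Finset.univ f hc fun j _ => hf j) _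
    (hneg _ _ (CombB_sum B h0 hadd m (i + 1) Finset.univ g hc fun j _ => hg j))

end Pool.Agent.OST
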