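import Pool.Agent.W_626a77_h71.BohrLat2

/-!
# Ruzsa covering by lattice points
-/

set_option autoImplicit false

open scoped Pointwise
open Module

namespace Pool.Agent.OST

open Pool.Agent.W_626a77_h71

section Z

variable {M : ℕ} [NeZero M] (Λ : Finset (AddChar (ZMod M) ℂ)) (θ : Λ → ℝ)
  (hθ : ∀ χ : Λ, ∀ x : ℤ, (χ : AddChar (ZMod M) ℂ) (x : ZMod M) = e (θ χ * x))

include hθ in
/-- `piLin` is injective on `S s`, `s ≤ 1/8`, and its values, reduced modulo `M`, are in `Boh Λ 1`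
(the two halves of the proof of `W_626a77_h71.S_le_Boh`). -/
theorem piLin_inj (R : ℝ) (hR : 0 < R) (s : ℝ) (hs0 : 0 ≤ s) (hs : s ≤ 1 / 8)
    (hsR : 2 * (s * R) < M) :
    (∀ v ∈ S (lat θ R) (lat_finite θ R hR) s, ∀ w ∈ S (lat θ R) (lat_finite θ R hR) s,
      piLin Λ R v = piLin Λ R w → v = w) ∧
    ∀ v ∈ S (lat θ R) (lat_finite θ R hR) s, ∃ n : ℤ, piLin Λ R v = n ∧ |(n : ℝ)| ≤ s * R ∧
      (n : ZMod M) ∈ Boh Λ 1 := by
  constructor
  · intro v hv w hw hvw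
    rw [mem_S] at hv hw
    obtain ⟨⟨x, rfl⟩, hx⟩ := hv
    obtain ⟨⟨y, rfl⟩, hy⟩ := hw
    rw [norm_latHom_le_iff θ R hR _ s hs0] at hx hy
    rw [piLin_latHom θ R hR x, piLin_latHom θ R hR y] at hvw
    have h1 : x.1 = y.1 := by exact_mod_cast hvw
    have h2 : x.2 = y.2 := by
      funext χ
      have e1 := hx.2 χ
      have e2 := hy.2 χ
      rw [h1] at e1
      have e3 : |((x.2 χ : ℝ)) - y.2 χ| < 1 := by
        have : ((x.2 χ : ℝ)) - y.2 χ
            = (θ χ * y.1 - y.2 χ) - (θ χ * y.1 - x.2 χ) := by ring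
        rw [this]
        have := abs_sub (θ χ * y.1 - y.2 χ) (θ χ * y.1 - x.2 χ)
        linarith
      have e4 : |x.2 χ - y.2 χ| < 1 := by exact_mod_cast e3
      rw [Int.abs_lt_one_iff] at e4
      omega
    rw [Prod.ext h1 h2]
  · intro v hv
    rw [mem_S] at hv
    obtain ⟨⟨x, rfl⟩, hx⟩ := hv
    rw [norm_latHom_le_iff θ R hR x s hs0] at hx
    refine ⟨x.1, piLin_latHom θ R hR x, hx.1, ?_⟩
    rw [mem_Boh]
    intro χ hχ
    rw [hθ ⟨χ, hχ⟩ x.1, ← e_sub_int _ (x.2 ⟨χ, hχ⟩)]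
    exact norm_one_sub_e_le _ ((hx.2 ⟨χ, hχ⟩).trans hs)

include hθ in
/-- RUZSA COVERING.  `Q` = the set of integers `piLin v`, `v ∈ S (s / 2)`: `|Q| = |S (s/2)|` and
`Q mod M ⊆ Boh Λ 1` (`piLin_inj`).  `|A + Q| = |(A + Q) mod M| ≤ |A mod M + Boh Λ 1| ≤ E |A|`
since the elements of `A + Q` have absolute value `< M / 2` (`|a| ≤ R / 8`, `|q| ≤ s R / 2`).
`Finset.ruzsa_covering_add` with `K = E |A| / |Q|` gives `F ⊆ A`, `|F| |Q| ≤ E |A|`,
`A ⊆ F + (Q - Q)`, and `piLin v - piLin w = piLin (v - w)` with `v - w ∈ S s`. -/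
theorem exists_cover (R : ℝ) (hR : 0 < R) (s : ℝ) (hs0 : 0 < s) (hs : s ≤ 1 / 8)
    (hMR : (M : ℝ) = 4 * R + 1) (A : Finset ℤ) (hA : A.Nonempty)
    (hAR : ∀ x ∈ A, |(x : ℝ)| ≤ R / 8) {E : ℝ}
    (hE : ((A.image (fun a : ℤ => (a : ZMod M)) + Boh Λ 1).card : ℝ) ≤ E * A.card) :
    ∃ F : Finset ℤ, (F.card : ℝ) * (S (lat θ R) (lat_finite θ R hR) (s / 2)).card ≤ E * A.card ∧
      ∀ a ∈ A, ∃ t ∈ F, ∃ w ∈ S (lat θ R) (lat_finite θ R hR) s, (a : ℝ) = t + piLin Λ R w := by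
  classical
  have hs2 : 0 ≤ s / 2 := by positivity
  have hs2' : s / 2 ≤ 1 / 16 := by linarith
  have hsR : 2 * (s / 2 * R) < M := by
    rw [hMR]
    nlinarith
  obtain ⟨hinj, hval⟩ := piLin_inj Λ θ hθ R hR (s / 2) hs2 (by linarith) hsR
  obtain ⟨Q, hQ⟩ : ∃ Q : Finset ℤ, Q = (S (lat θ R) (lat_finite θ R hR) (s / 2)).image
      (fun v => round (piLin Λ R v)) := ⟨_, rfl⟩
  have hround : ∀ v ∈ S (lat θ R) (lat_finite θ R hR) (s / 2),
      ((round (piLin Λ R v) : ℤ) : ℝ) = piLin Λ R v := by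
    intro v hv
    obtain ⟨n, hn, -⟩ := hval v hv
    rw [hn, round_intCast]
  have hQc : Q.card = (S (lat θ R) (lat_finite θ R hR) (s / 2)).card := by
    rw [hQ]
    refine Finset.card_image_of_injOn fun v hv w hw hvw => ?_
    rw [Finset.mem_coe] at hv hw
    refine hinj v hv w hw ?_
    rw [← hround v hv, ← hround w hw, hvw]
  have hQmem : ∀ q ∈ Q, |(q : ℝ)| ≤ s / 2 * R ∧ (q : ZMod M) ∈ Boh Λ 1 := by
    intro q hq
    rw [hQ, Finset.mem_image] at hq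
    obtain ⟨v, hv, rfl⟩ := hq
    obtain ⟨n, hn, hn1, hn2⟩ := hval v hv
    rw [hn, round_intCast]
    exact ⟨hn1, hn2⟩
  have hQpos : 0 < Q.card := by
    rw [hQc]
    exact S_card_pos _ _ hs2
  have hQne : Q.Nonempty := Finset.card_pos.mp hQpos
  have hinjAQ : Set.InjOn (fun x : ℤ => (x : ZMod M)) ((A + Q : Finset ℤ) : Set ℤ) := by
    have hb : ∀ x ∈ A + Q, |(x : ℝ)| ≤ R / 4 := by
      intro x hx
      rw [Finset.mem_add] at hx
      obtain ⟨a, ha, q, hq, rfl⟩ := hx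
      have h1 := hAR a ha
      have h2 := (hQmem q hq).1
      push_cast
      have h3 := abs_add_le (a : ℝ) q
      have h4 : s / 2 * R ≤ 1 / 16 * R := mul_le_mul_of_nonneg_right hs2' hR.le
      linarith
    intro x hx y hy hxy
    apply int_eq_of_cast_eq M x y hxy
    have h1 := hb x hx
    have h2 := hb y hy
    have h3 := abs_sub (x : ℝ) y
    rw [hMR]
    linarith
  have hAQ : ((A + Q).card : ℝ) ≤ E * A.card := by
    refine le_trans ?_ hE
    have h1 : (A + Q).card = ((A + Q).image (fun x : ℤ => (x : ZMod M))).card :=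
      (Finset.card_image_of_injOn hinjAQ).symm
    rw [h1]
    refine Nat.cast_le.mpr (Finset.card_le_card fun z hz => ?_)
    rw [Finset.mem_image] at hz
    obtain ⟨x, hx, rfl⟩ := hz
    rw [Finset.mem_add] at hx
    obtain ⟨a, ha, q, hq, rfl⟩ := hx
    rw [Finset.mem_add]
    exact ⟨(a : ZMod M), Finset.mem_image.mpr ⟨a, ha, rfl⟩, (q : ZMod M), (hQmem q hq).2, by
      push_cast; rfl⟩
  have hQr : (0 : ℝ) < Q.card := by exact_mod_cast hQpos
  have hK : ((A + Q).card : ℝ) ≤ (E * A.card / Q.card) * Q.card := by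
    rw [div_mul_cancel₀ _ hQr.ne']
    exact hAQ
  obtain ⟨F, -, hFc, hcov⟩ := Finset.ruzsa_covering_add hQne hK
  refine ⟨F, ?_, ?_⟩
  · rw [← hQc]
    rwa [le_div_iff₀ hQr] at hFc
  · intro a ha
    have h1 := hcov ha
    rw [Finset.mem_add] at h1
    obtain ⟨t, ht, y, hy, rfl⟩ := h1
    rw [Finset.mem_sub] at hy
    obtain ⟨q, hq, q', hq', rfl⟩ := hy
    rw [hQ, Finset.mem_image] at hq hq'
    obtain ⟨v, hv, rfl⟩ := hq
    obtain ⟨v', hv', rfl⟩ := hq'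
    refine ⟨t, ht, v - v', ?_, ?_⟩
    · rw [mem_S] at hv hv' ⊢
      refine ⟨sub_mem hv.1 hv'.1, ?_⟩
      have h2 := norm_sub_le v v'
      linarith [hv.2, hv'.2]
    · push_cast
      rw [hround v hv, hround v' hv', map_sub]

end Z

end Pool.Agent.OST
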