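import Pool.Agent.OST_h95.LatA
import Pool.Agent.OST_h95.LatB

/-!
# From a Bohr set in `ZMod M` absorbed by `A` to a convex progression which covers `A` efficiently
-/

set_option autoImplicit false

open scoped Pointwise
open Module

namespace Pool.Agent.OST

open Pool.Agent.W_626a77_h71

/-- conclusion: `A` is covered efficiently by translates of a proper convex progression -/
def Concl2 (A : Finset ℤ) (D : ℕ) (V E : ℝ) : Prop :=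
  ∃ (d : ℕ) (B : Set (Fin d → ℝ)) (v : Fin d → ℤ) (T : Finset ℤ), d ≤ D ∧ Convex ℝ B ∧
    IsCompact B ∧ (interior B).Nonempty ∧ (∀ x ∈ B, -x ∈ B) ∧
    ({x : Fin d → ℤ | (fun i => (x i : ℝ)) ∈ B}.ncard ≤ A.card) ∧
    ((A.card : ℝ) ≤ V * {x : Fin d → ℤ | (fun i => (x i : ℝ)) ∈ B}.ncard) ∧
    ((T.card : ℝ) * {x : Fin d → ℤ | (fun i => (x i : ℝ)) ∈ B}.ncard ≤ E * A.card) ∧
    (∀ x y : Fin d → ℤ, (fun i => (x i : ℝ)) ∈ B → (fun i => (y i : ℝ)) ∈ B →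
      ∑ i, v i * x i = ∑ i, v i * y i → x = y) ∧
    ∀ a ∈ A, ∃ t ∈ T, ∃ x : Fin d → ℤ,
      (fun i => (x i : ℝ)) ∈ B ∧ a = t + ∑ i, v i * x i

/-- LATTICE CONCLUSION (model: `W_626a77_h71.core_concl`).  `dim_bound` gives the dimension of the
span of `S δ`, `δ = (4 ^ ν)⁻¹`; `Boh_le_S` gives `|Boh Λ δ| ≤ |S δ|`; then `exists_radius` with
`N = |A|`, `exists_cover` and `exists_body`. -/
theorem lattice_concl (M : ℕ) [NeZero M] (Λ : Finset (AddChar (ZMod M) ℂ)) (ν D : ℕ) (R : ℝ)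
    (hR : 0 < R) (hMR : (M : ℝ) = 4 * R + 1) (c : ℝ) (hν : 1 ≤ ν) (hD2 : 24 * (D + 1) ≤ 2 ^ ν)
    (hD : c < Real.log 2 * (D + 1))
    (hrep : ∀ x ∈ Boh Λ 1, ∃ n : ℤ, x = (n : ZMod M) ∧ |(n : ℝ)| ≤ (4 ^ ν)⁻¹ * R)
    (hc : ((Boh Λ 1).card : ℝ) ≤ Real.exp (c * ν) * (Boh Λ ((4 ^ ν)⁻¹)).card)
    (A : Finset ℤ) (hA : A.Nonempty) (hAR : ∀ x ∈ A, |(x : ℝ)| ≤ R / 8) (V E : ℝ)
    (hV5 : (5 : ℝ) ^ D ≤ V) (hV : (A.card : ℝ) ≤ V * (Boh Λ ((4 ^ ν)⁻¹)).card)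
    (hE0 : 0 ≤ E)
    (hE : ((A.image (fun a : ℤ => (a : ZMod M)) + Boh Λ 1).card : ℝ) ≤ E * A.card) :
    Concl2 A D V (5 ^ D * E) := by
  classical
  choose θ hθ using fun χ : Λ => exists_theta M (χ : AddChar (ZMod M) ℂ)
  have h4pos : (0:ℝ) < 4 ^ ν := by positivity
  have h4ge : (4:ℝ) ≤ 4 ^ ν := by
    calc (4:ℝ) = 4 ^ 1 := by norm_num
      _ ≤ 4 ^ ν := pow_le_pow_right₀ (by norm_num) hν
  have hinv1 : ((4:ℝ) ^ ν)⁻¹ ≤ 1 := by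
    rw [inv_le_one₀ h4pos]; linarith
  have hposinv : (0:ℝ) < ((4:ℝ) ^ ν)⁻¹ := by positivity
  have h24 : 24 ≤ 2 ^ ν := le_trans (by omega) hD2
  have hδ8 : ((4:ℝ) ^ ν)⁻¹ ≤ 1 / 8 := by
    have e1 : (24:ℝ) ≤ 2 ^ ν := by exact_mod_cast h24
    have e2 : (4 : ℝ) ^ ν = 2 ^ ν * 2 ^ ν := by rw [← mul_pow]; norm_num
    have e3 : (8:ℝ) ≤ 4 ^ ν := by
      rw [e2]
      calc (8:ℝ) ≤ 24 * 24 := by norm_num
        _ ≤ 2 ^ ν * 2 ^ ν := by gcongr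
    rw [inv_le_comm₀ h4pos (by norm_num)]
    norm_num
    exact e3
  have hsR : 2 * (1 / 8 * R) < M := by rw [hMR]; linarith
  have hrepδ : ∀ x ∈ Boh Λ ((4 ^ ν)⁻¹), ∃ n : ℤ, x = (n : ZMod M) ∧
      |(n : ℝ)| ≤ (4 ^ ν)⁻¹ * R := fun x hx => hrep x (Boh_mono Λ hinv1 hx)
  have hdim := dim_bound Λ θ hθ R hR c D ν hν hsR hrepδ hc hD hD2
  have hBS := Boh_le_S Λ θ hθ R hR ((4 ^ ν)⁻¹) ((4 ^ ν)⁻¹) hposinv.le (by linarith) hrepδ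
  have hV0 : (0:ℝ) ≤ V := le_trans (by positivity) hV5
  have hA0 : 0 < A.card := Finset.card_pos.2 hA
  have hV' : (A.card : ℝ) ≤ V * (S (lat θ R) (lat_finite θ R hR) ((4 ^ ν)⁻¹)).card := by
    refine hV.trans (mul_le_mul_of_nonneg_left ?_ hV0)
    exact_mod_cast hBS
  obtain ⟨s, hs0, hsδ, hs1, hs2, hs3⟩ := exists_radius (lat θ R) (lat_finite θ R hR)
    ((4 ^ ν)⁻¹) hposinv D hdim A.card hA0 hV5 hV'
  have hs8 : s ≤ 1 / 8 := hsδ.trans hδ8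
  have hsR' : 2 * (s * R) < M := lt_of_le_of_lt (by gcongr) hsR
  obtain ⟨F, hF1, hF2⟩ := exists_cover Λ θ hθ R hR s hs0 hs8 hMR A hA hAR hE
  obtain ⟨d, B, v, r1, r2, r3, r4, r5, r6, r7, r8⟩ := exists_body (lat θ R) (lat_finite θ R hR)
    (piLin Λ R) (piLin_int θ R hR) ((4 ^ ν)⁻¹) D hdim s hs0 hsδ
    (piLin_inj Λ θ hθ R hR s hs0.le hs8 hsR').1
  refine ⟨d, B, v, F, r1, r2, r3, r4, r5, ?_, ?_, ?_, r7, ?_⟩
  · rw [r6]; exact hs1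
  · rw [r6]; exact hs2
  · rw [r6]
    calc (F.card : ℝ) * (S (lat θ R) (lat_finite θ R hR) s).card
        ≤ F.card * (5 ^ D * (S (lat θ R) (lat_finite θ R hR) (s / 2)).card) := by gcongr
      _ = 5 ^ D * (F.card * (S (lat θ R) (lat_finite θ R hR) (s / 2)).card) := by ring
      _ ≤ 5 ^ D * (E * A.card) := by gcongr
      _ = 5 ^ D * E * A.card := by ring
  · intro a ha
    obtain ⟨t, ht, w, hw, haw⟩ := hF2 a ha
    obtain ⟨x, hx, hwx⟩ := r8 w hw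
    refine ⟨t, ht, x, hx, ?_⟩
    rw [hwx] at haw
    exact_mod_cast haw

end Pool.Agent.OST
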