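import Pool.Agent.OST_h95.Group2
import Pool.Agent.OST_h95.CombB
import Pool.Agent.OST_h95.LatC
import Pool.Agent.W_626a77_h48.Adapter

/-!
# The covering theorem over the integers
-/

set_option autoImplicit false

namespace Pool.Agent.OST

open Finset Real Pool.Agent.W_626a77_h71
open scoped Pointwise

theorem num1 (κ₁ : ℝ) (hκ : 1 ≤ κ₁) : ∃ ν D : ℕ, 1 ≤ ν ∧ 1000 * (1 + Real.log κ₁) ≤ ν ∧
    (ν : ℝ) ≤ 1001 * (1 + Real.log κ₁) ∧ 24 * (D + 1) ≤ 2 ^ ν ∧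
    1000 * κ₁ < Real.log 2 * (D + 1) ∧ (D : ℝ) ≤ 1500 * κ₁ := by
  have hlog := Real.log_nonneg hκ
  have hl2 := Real.log_two_gt_d9
  have hl20 : 0 < Real.log 2 := by linarith
  have hκ0 : 0 < κ₁ := by linarith
  obtain ⟨ν, hν⟩ : ∃ ν : ℕ, ν = ⌈1000 * (1 + Real.log κ₁)⌉₊ := ⟨_, rfl⟩
  obtain ⟨D, hD⟩ : ∃ D : ℕ, D = ⌊1000 * κ₁ / Real.log 2⌋₊ := ⟨_, rfl⟩
  have h1 : 1000 * (1 + Real.log κ₁) ≤ ν := by rw [hν]; exact Nat.le_ceil _
  have h2 : (ν : ℝ) ≤ 1001 * (1 + Real.log κ₁) := by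
    have := Nat.ceil_lt_add_one (a := 1000 * (1 + Real.log κ₁)) (by positivity)
    rw [← hν] at this
    linarith
  have h3 : (D : ℝ) ≤ 1500 * κ₁ := by
    have h4 : (D : ℝ) ≤ 1000 * κ₁ / Real.log 2 := by
      rw [hD]; exact Nat.floor_le (by positivity)
    refine h4.trans ?_
    rw [div_le_iff₀ hl20]
    have : 1500 * κ₁ * 0.6931471803 ≤ 1500 * κ₁ * Real.log 2 := by gcongr
    linarith
  refine ⟨ν, D, ?_, h1, h2, ?_, ?_, h3⟩
  · have : (1 : ℝ) ≤ ν := by linarith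
    exact_mod_cast this
  · have h5 : (24 * (D + 1) : ℝ) ≤ 36024 * κ₁ := by linarith
    have h6 : 36024 * κ₁ ≤ (2 : ℝ) ^ ν := by
      have e1 : (2 : ℝ) ^ ν = exp (ν * Real.log 2) := by
        rw [mul_comm, Real.exp_mul, Real.exp_log (by norm_num), Real.rpow_natCast]
      have e2 : 12 + Real.log κ₁ ≤ ν * Real.log 2 := by
        have : 1000 * (1 + Real.log κ₁) * 0.6931471803 ≤ ν * Real.log 2 := by gcongr
        linarith
      have e3 : (36024 : ℝ) ≤ exp 12 := by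
        have := Real.exp_one_gt_d9
        calc (36024 : ℝ) ≤ 2.7182818283 ^ 12 := by norm_num
          _ ≤ exp 1 ^ 12 := by gcongr
          _ = exp 12 := by rw [← Real.exp_nat_mul]; norm_num
      calc 36024 * κ₁ ≤ exp 12 * κ₁ := by gcongr
        _ = exp (12 + Real.log κ₁) := by rw [Real.exp_add, Real.exp_log hκ0]
        _ ≤ _ := by rw [e1]; gcongr
    have h7 : ((24 * (D + 1) : ℕ) : ℝ) ≤ ((2 ^ ν : ℕ) : ℝ) := by push_cast; linarith
    exact_mod_cast h7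
  · have h4 := Nat.lt_floor_add_one (1000 * κ₁ / Real.log 2)
    rw [← hD, div_lt_iff₀ hl20] at h4
    linarith

theorem Concl2.mono {A : Finset ℤ} {D : ℕ} {V E V' E' : ℝ} (hV : V ≤ V') (hE : E ≤ E')
    (h : Concl2 A D V E) : Concl2 A D V' E' := by
  obtain ⟨d, B, v, T, h1, h2, h3, h4, h5, h6, h7, h8, h9, h10⟩ := h
  exact ⟨d, B, v, T, h1, h2, h3, h4, h5, h6, h7.trans (by gcongr), h8.trans (by gcongr), h9, h10⟩

/-- growth along the system -/
theorem iter_system {G : Type} (B : ℕ → Finset G) {p : ℝ} (r : ℕ)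
    (h : ∀ i < r, ((B i).card : ℝ) ≤ exp p * (B (i + 1)).card) (m : ℕ) (i : ℕ) (hi : i + m ≤ r) :
    ((B i).card : ℝ) ≤ exp (p * m) * (B (i + m)).card := by
  induction m with
  | zero => simp
  | succ m ih =>
    have h1 := ih (by omega)
    have h2 := h (i + m) (by omega)
    calc ((B i).card : ℝ) ≤ exp (p * m) * (B (i + m)).card := h1
      _ ≤ exp (p * m) * (exp p * (B (i + m + 1)).card) := by gcongr
      _ = exp (p * (m + 1 : ℕ)) * (B (i + (m + 1))).card := by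
          rw [← mul_assoc, ← Real.exp_add]
          congr 2
          push_cast
          ring

theorem covering (ε : ℝ) (hε : 0 < ε) : ∃ C : ℝ, 1 ≤ C ∧ ∀ (k : ℝ) (A : Finset ℤ), 1 ≤ k →
    A.Nonempty → ((A + A).card : ℝ) ≤ exp k * A.card →
    ∃ D : ℕ, (D : ℝ) ≤ C * k ∧ Concl2 A D (exp (C * k ^ (1 + ε))) (exp (C * k)) := by
  obtain ⟨C₁, hC₁, hG⟩ := group_system ε hε
  obtain ⟨C₃, hC₃⟩ : ∃ C₃ : ℝ, C₃ = 1001 * (1 + Real.log (3 * C₁) + 1 / ε) := ⟨_, rfl⟩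
  have hlog3 : 0 ≤ Real.log (3 * C₁) := Real.log_nonneg (by linarith)
  have hC₃0 : 1001 ≤ C₃ := by
    have : 0 < 1 / ε := by positivity
    rw [hC₃]; linarith
  refine ⟨10000 * C₁ * C₃, ?_, ?_⟩
  · have : 1 ≤ C₁ * C₃ := one_le_mul_of_one_le_of_one_le hC₁ (by linarith)
    linarith
  intro k A hk hA hAA
  have hk0 : 0 < k := by linarith
  have hA0 : (0 : ℝ) < A.card := by exact_mod_cast hA.card_pos
  obtain ⟨κ₁, hκ₁⟩ : ∃ κ₁ : ℝ, κ₁ = 3 * C₁ * k := ⟨_, rfl⟩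
  have hκ1 : 1 ≤ κ₁ := by
    have : 1 ≤ C₁ * k := one_le_mul_of_one_le_of_one_le hC₁ hk
    rw [hκ₁]; linarith
  obtain ⟨ν, D, hν1, hν2, hν3, hD2, hD1, hD3⟩ := num1 κ₁ hκ1
  have hke0 : 0 < k ^ ε := Real.rpow_pos_of_pos hk0 _
  have hke1 : 1 ≤ k ^ ε := Real.one_le_rpow hk hε.le
  have hνk : (ν : ℝ) ≤ C₃ * k ^ ε := by
    have h1 : Real.log κ₁ = Real.log (3 * C₁) + Real.log k := by
      rw [hκ₁, Real.log_mul (by positivity) hk0.ne']
    have h2 : Real.log k ≤ k ^ ε / ε := Real.log_le_rpow_div hk0.le hε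
    have h3 : Real.log (3 * C₁) ≤ Real.log (3 * C₁) * k ^ ε := le_mul_of_one_le_right hlog3 hke1
    rw [hC₃]
    have h4 : k ^ ε / ε = 1 / ε * k ^ ε := by ring
    have h5 : 1001 * (1 + Real.log (3 * C₁) + 1 / ε) * k ^ ε =
      1001 * (k ^ ε + Real.log (3 * C₁) * k ^ ε + 1 / ε * k ^ ε) := by ring
    rw [h5]
    rw [h1] at hν3
    linarith
  have hkk : k * k ^ ε = k ^ (1 + ε) := by rw [Real.rpow_add hk0, Real.rpow_one]
  have hkνz : k * ν ≤ C₃ * k ^ (1 + ε) := by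
    calc k * ν ≤ k * (C₃ * k ^ ε) := by gcongr
      _ = C₃ * k ^ (1 + ε) := by rw [← hkk]; ring
  -- bound for `A`, modulus
  obtain ⟨a, ha⟩ : ∃ a : ℕ, ∀ x ∈ A, |x| ≤ (a : ℤ) := by
    refine ⟨∑ x ∈ A, x.natAbs, ?_⟩
    intro x hx
    rw [Int.abs_eq_natAbs]
    exact_mod_cast Finset.single_le_sum (f := fun x : ℤ => x.natAbs) (fun _ _ => Nat.zero_le _) hx
  obtain ⟨lm, hlm⟩ : ∃ lm : ℕ, lm = 2 ^ (10 * ν) := ⟨_, rfl⟩
  have hlm1 : 1 ≤ lm := by rw [hlm]; exact Nat.one_le_two_pow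
  obtain ⟨M, hM⟩ : ∃ M : ℕ, M = 8 * (lm * (2 * a + 1) * 4 ^ ν) + 1 := ⟨_, rfl⟩
  have : NeZero M := ⟨by omega⟩
  obtain ⟨R, hRdef⟩ : ∃ R : ℝ, R = 2 * lm * (2 * a + 1) * 4 ^ ν := ⟨_, rfl⟩
  have hR : 0 < R := by
    have : (1 : ℝ) ≤ lm := by exact_mod_cast hlm1
    rw [hRdef]; positivity
  have hMR : (M : ℝ) = 4 * R + 1 := by
    rw [hM, hRdef]; push_cast; ring
  have h4pos : (0:ℝ) < 4 ^ ν := by positivity
  have h24 : 24 ≤ 2 ^ ν := le_trans (by omega) hD2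
  have h4ge : (16:ℝ) ≤ 4 ^ ν := by
    have e1 : (24:ℝ) ≤ 2 ^ ν := by exact_mod_cast h24
    have e2 : (4 : ℝ) ^ ν = 2 ^ ν * 2 ^ ν := by rw [← mul_pow]; norm_num
    rw [e2]
    calc (16:ℝ) ≤ 24 * 24 := by norm_num
      _ ≤ 2 ^ ν * 2 ^ ν := by gcongr
  have hδR : ((4:ℝ) ^ ν)⁻¹ * R = 2 * lm * (2 * a + 1) := by
    rw [hRdef]; field_simp
  have hRa : 8 * (2 * (a : ℝ) + 1) ≤ R := by
    have h1 : (1:ℝ) ≤ lm := by exact_mod_cast hlm1
    calc 8 * (2 * (a : ℝ) + 1) ≤ 2 * 1 * (2 * a + 1) * 16 := by linarith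
      _ ≤ 2 * lm * (2 * a + 1) * 4 ^ ν := by gcongr
      _ = R := hRdef.symm
  obtain ⟨A', hA'⟩ : ∃ A' : Finset (ZMod M), A' = A.image (fun a : ℤ => (a : ZMod M)) := ⟨_, rfl⟩
  have hinj : Set.InjOn (fun a : ℤ => (a : ZMod M)) A := by
    intro x hx y hy hxy
    apply int_eq_of_cast_eq M x y hxy
    have e1 : |(x : ℝ)| ≤ a := by exact_mod_cast ha x hx
    have e2 : |(y : ℝ)| ≤ a := by exact_mod_cast ha y hy
    have := abs_sub (x : ℝ) y
    rw [hMR]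
    linarith
  have hcard : A'.card = A.card := by rw [hA']; exact Finset.card_image_of_injOn hinj
  have hA'ne : A'.Nonempty := by rw [hA']; exact hA.image _
  have hadd : ((A' + A').card : ℝ) ≤ exp k * A'.card := by
    have h1 : A' + A' = (A + A).image (fun a : ℤ => (a : ZMod M)) := by
      rw [hA']
      exact (Finset.image_add (Int.castRingHom (ZMod M))).symm
    rw [hcard, h1]
    refine le_trans ?_ hAA
    exact_mod_cast Finset.card_image_le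
  have hsub : ((A' - A').card : ℝ) ≤ exp (2 * k) * A'.card := by
    have h1 := Finset.ruzsa_triangle_inequality_sub_add_add A' A' A'
    have h2 : ((A' - A').card : ℝ) * A'.card ≤ (A' + A').card * (A' + A').card := by
      exact_mod_cast h1
    have hA'0 : (0 : ℝ) < A'.card := by rw [hcard]; exact hA0
    have h3 : ((A' - A').card : ℝ) * A'.card ≤ (exp (2 * k) * A'.card) * A'.card := by
      calc _ ≤ _ := h2
        _ ≤ (exp k * A'.card) * (exp k * A'.card) := by gcongr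
        _ = _ := by
          rw [two_mul, Real.exp_add]
          ring
    exact le_of_mul_le_mul_right h3 hA'0
  obtain ⟨B, hB0, hBneg, hBadd, hBgrow, hBabs, hBbig⟩ :=
    hG (ZMod M) A' hA'ne k (10 * ν + 2) hk hadd hsub
  have hBmono : ∀ i, B (i + 1) ⊆ B i := by
    intro i x hx
    have := hBadd i x hx 0 (hB0 _)
    rwa [add_zero] at this
  have hBmono' : ∀ i, B i ⊆ B 0 := by
    intro i
    induction i with
    | zero => exact subset_rfl
    | succ i ih => exact (hBmono i).trans ih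
  -- the small doubling set inside the small ball
  obtain ⟨𝔅, h𝔅⟩ : ∃ 𝔅 : Finset (ZMod M), 𝔅 = B (10 * ν + 1) ∩ (A' - A') := ⟨_, rfl⟩
  have hcomm := many_common A' (B (10 * ν + 2)) (B (10 * ν + 1)) hA'ne ⟨0, hB0 _⟩ (by
    intro x hx y hy
    rw [sub_eq_add_neg]
    exact hBadd _ x hx (-y) (hBneg _ y hy))
  rw [← h𝔅] at hcomm
  have hA'0 : (0 : ℝ) < A'.card := by rw [hcard]; exact hA0
  have hlow : ((B (10 * ν + 2)).card : ℝ) ≤ exp (C₁ * k) * 𝔅.card := by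
    have h1 : ((A' + B (10 * ν + 2)).card : ℝ) ≤ exp (C₁ * k) * A'.card := by
      refine le_trans ?_ hBabs
      exact_mod_cast Finset.card_le_card (Finset.add_subset_add_left (hBmono' _))
    have h2 : ((B (10 * ν + 2)).card : ℝ) * A'.card ≤ (exp (C₁ * k) * 𝔅.card) * A'.card := by
      calc ((B (10 * ν + 2)).card : ℝ) * A'.card = A'.card * (B (10 * ν + 2)).card := mul_comm _ _
        _ ≤ 𝔅.card * (A' + B (10 * ν + 2)).card := hcomm
        _ ≤ 𝔅.card * (exp (C₁ * k) * A'.card) := by gcongr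
        _ = _ := by ring
    exact le_of_mul_le_mul_right h2 hA'0
  have h𝔅ne : 𝔅.Nonempty := by
    rw [h𝔅]
    obtain ⟨x, hx⟩ := hA'ne
    exact ⟨0, Finset.mem_inter.2 ⟨hB0 _, Finset.mem_sub.2 ⟨x, hx, x, hx, sub_self x⟩⟩⟩
  have hdoub : ((𝔅 + 𝔅).card : ℝ) ≤ exp κ₁ * 𝔅.card := by
    have h1 : 𝔅 + 𝔅 ⊆ B (10 * ν) := by
      intro z hz
      obtain ⟨x, hx, y, hy, rfl⟩ := Finset.mem_add.1 hz
      rw [h𝔅] at hx hy
      exact hBadd _ x (Finset.mem_inter.1 hx).1 y (Finset.mem_inter.1 hy).1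
    have h2 := iter_system B (10 * ν + 2) hBgrow 2 (10 * ν) le_rfl
    calc ((𝔅 + 𝔅).card : ℝ) ≤ (B (10 * ν)).card := by exact_mod_cast Finset.card_le_card h1
      _ ≤ exp (C₁ * k * (2 : ℕ)) * (B (10 * ν + 2)).card := h2
      _ ≤ exp (C₁ * k * (2 : ℕ)) * (exp (C₁ * k) * 𝔅.card) := by gcongr
      _ = exp κ₁ * 𝔅.card := by
          rw [← mul_assoc, ← Real.exp_add, hκ₁]
          congr 2
          push_cast
          ring
  obtain ⟨Λ, l, hl, c1, c2, c3, -, c5⟩ :=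
    Pool.Agent.QFR.core_1000 M 𝔅 κ₁ ν h𝔅ne hκ1 hdoub hν2
  have hmem𝔅 : ∀ x ∈ 𝔅, ∃ n : ℤ, x = (n : ZMod M) ∧ |(n : ℝ)| ≤ 2 * a := by
    intro x hx
    rw [h𝔅] at hx
    obtain ⟨y, hy, z, hz, rfl⟩ := Finset.mem_sub.1 (Finset.mem_inter.1 hx).2
    rw [hA'] at hy hz
    obtain ⟨p, hp, rfl⟩ := Finset.mem_image.1 hy
    obtain ⟨q, hq, rfl⟩ := Finset.mem_image.1 hz
    refine ⟨p - q, by push_cast; rfl, ?_⟩
    have e1 : |(p : ℝ)| ≤ a := by exact_mod_cast ha p hp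
    have e2 : |(q : ℝ)| ≤ a := by exact_mod_cast ha q hq
    have := abs_sub (p : ℝ) q
    push_cast
    linarith
  -- representatives
  have hrep : ∀ x ∈ Boh Λ 1, ∃ n : ℤ, x = (n : ZMod M) ∧ |(n : ℝ)| ≤ (4 ^ ν)⁻¹ * R := by
    intro x hx
    obtain ⟨f, g, hf, hg, hxfg⟩ := c5 x hx
    choose f' hf' using fun i => hmem𝔅 _ (hf i)
    choose g' hg' using fun i => hmem𝔅 _ (hg i)
    refine ⟨∑ i, f' i - ∑ i, g' i, ?_, ?_⟩
    · rw [hxfg]
      push_cast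
      congr 1
      · exact Finset.sum_congr rfl (fun i _ => (hf' i).1)
      · exact Finset.sum_congr rfl (fun i _ => (hg' i).1)
    · rw [hδR]
      push_cast
      have e1 : |∑ i, (f' i : ℝ)| ≤ l * (2 * a) := by
        calc |∑ i, (f' i : ℝ)| ≤ ∑ i, |(f' i : ℝ)| := Finset.abs_sum_le_sum_abs _ _
          _ ≤ ∑ _i : Fin l, (2 * a : ℝ) := Finset.sum_le_sum (fun i _ => (hf' i).2)
          _ = l * (2 * a) := by simp
      have e2 : |∑ i, (g' i : ℝ)| ≤ l * (2 * a) := by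
        calc |∑ i, (g' i : ℝ)| ≤ ∑ i, |(g' i : ℝ)| := Finset.abs_sum_le_sum_abs _ _
          _ ≤ ∑ _i : Fin l, (2 * a : ℝ) := Finset.sum_le_sum (fun i _ => (hg' i).2)
          _ = l * (2 * a) := by simp
      have e3 := abs_sub (∑ i, (f' i : ℝ)) (∑ i, (g' i : ℝ))
      have e4 : (l : ℝ) ≤ lm := by rw [hlm]; exact_mod_cast hl
      have e5 : (l : ℝ) * (2 * a) ≤ lm * (2 * a + 1) :=
        mul_le_mul e4 (by linarith) (by positivity) (by positivity)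
      linarith
  have hBoh0 : Boh Λ 1 ⊆ B 0 := by
    intro x hx
    obtain ⟨f, g, hf, hg, rfl⟩ := c5 x hx
    have h𝔅sub : ∀ y ∈ 𝔅, y ∈ B (0 + 10 * ν + 1) := by
      intro y hy
      rw [h𝔅] at hy
      rw [zero_add]
      exact (Finset.mem_inter.1 hy).1
    exact sum_mem_system B hB0 hBneg hBadd (10 * ν) 0 l hl f g (fun j => h𝔅sub _ (hf j))
      (fun j => h𝔅sub _ (hg j))
  have hE : ((A.image (fun a : ℤ => (a : ZMod M)) + Boh Λ 1).card : ℝ) ≤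
      exp (C₁ * k) * A.card := by
    rw [← hA', ← hcard]
    refine le_trans ?_ hBabs
    exact_mod_cast Finset.card_le_card (Finset.add_subset_add_left hBoh0)
  obtain ⟨V, hVdef⟩ : ∃ V : ℝ, V = exp (10000 * C₁ * C₃ * k ^ (1 + ε)) := ⟨_, rfl⟩
  have hk1 : k ≤ k ^ (1 + ε) := by
    calc k = k ^ (1 : ℝ) := (Real.rpow_one k).symm
      _ ≤ k ^ (1 + ε) := Real.rpow_le_rpow_of_exponent_le hk (by linarith)
  have hlog5 : Real.log 5 ≤ 2 := by
    rw [Real.log_le_iff_le_exp (by norm_num)]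
    have := Real.exp_one_gt_d9
    calc (5 : ℝ) ≤ 2.7182818283 ^ 2 := by norm_num
      _ ≤ exp 1 ^ 2 := by gcongr
      _ = exp 2 := by rw [← Real.exp_nat_mul]; norm_num
  have h5D : (5 : ℝ) ^ D ≤ exp (9000 * (C₁ * k)) := by
    have e1 : (5 : ℝ) ^ D = exp (D * Real.log 5) := by
      rw [mul_comm, Real.exp_mul, Real.exp_log (by norm_num), Real.rpow_natCast]
    rw [e1]
    refine Real.exp_le_exp.2 ?_
    calc (D : ℝ) * Real.log 5 ≤ (1500 * κ₁) * 2 := by gcongr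
      _ = 9000 * (C₁ * k) := by rw [hκ₁]; ring
  have hCk : 0 < C₁ * k := by positivity
  have hC3k : C₁ * k * 1001 ≤ C₁ * k * C₃ := by gcongr
  obtain ⟨z, hz⟩ : ∃ z : ℝ, z = k ^ (1 + ε) := ⟨_, rfl⟩
  have hz0 : 0 < z := by rw [hz]; positivity
  have hCz : 0 < C₁ * z := by positivity
  have hC3z : C₁ * z * 1001 ≤ C₁ * z * C₃ := by gcongr
  have hCkz : C₁ * k ≤ C₁ * z := by rw [hz]; gcongr
  have hV5 : (5 : ℝ) ^ D ≤ V := by
    refine h5D.trans ?_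
    rw [hVdef, ← hz]
    refine Real.exp_le_exp.2 ?_
    have e : 10000 * C₁ * C₃ * z = 10000 * (C₁ * z * C₃) := by ring
    rw [e]
    linarith
  have hV : (A.card : ℝ) ≤ V * (Boh Λ ((4 ^ ν)⁻¹)).card := by
    have h1 := iter_system B (10 * ν + 2) hBgrow (10 * ν + 2) 0 (by omega)
    rw [zero_add] at h1
    have hexp1000 : exp (1000 * κ₁ * ν) = exp (3000 * (C₁ * (k * ν))) := by
      rw [hκ₁]; congr 1; ring
    rw [hexp1000] at c2
    calc (A.card : ℝ) = A'.card := by rw [hcard]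
      _ ≤ exp (C₁ * k ^ (1 + ε)) * (B 0).card := hBbig
      _ ≤ exp (C₁ * k ^ (1 + ε)) * (exp (C₁ * k * ((10 * ν + 2 : ℕ) : ℝ)) *
            (exp (C₁ * k) * (exp (3000 * (C₁ * (k * ν))) * (Boh Λ ((4 ^ ν)⁻¹)).card))) := by
          gcongr
          refine h1.trans ?_
          gcongr
          refine hlow.trans ?_
          gcongr
      _ = exp (C₁ * z + C₁ * k * ((10 * ν + 2 : ℕ) : ℝ) + C₁ * k + 3000 * (C₁ * (k * ν))) *
            (Boh Λ ((4 ^ ν)⁻¹)).card := by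
          rw [Real.exp_add, Real.exp_add, Real.exp_add, hz]
          ring
      _ ≤ V * (Boh Λ ((4 ^ ν)⁻¹)).card := by
          rw [hVdef, ← hz]
          refine mul_le_mul_of_nonneg_right (Real.exp_le_exp.2 ?_) (Nat.cast_nonneg _)
          push_cast
          rw [← hz] at hkνz
          have f1 : C₁ * (k * ν) ≤ C₁ * (C₃ * z) := by gcongr
          have f2 : C₁ * k * (10 * ν + 2) = 10 * (C₁ * (k * ν)) + 2 * (C₁ * k) := by ring
          have f3 : 10000 * C₁ * C₃ * z = 10000 * (C₁ * (C₃ * z)) := by ring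
          have f4 : C₁ * z * C₃ = C₁ * (C₃ * z) := by ring
          rw [f2, f3]
          rw [f4] at hC3z
          linarith
  have hfin := lattice_concl M Λ ν D R hR hMR (1000 * κ₁) hν1 hD2 hD1 hrep c1 A hA (by
    intro x hx
    have e1 : |(x : ℝ)| ≤ a := by exact_mod_cast ha x hx
    linarith) V (exp (C₁ * k)) hV5 hV (Real.exp_pos _).le hE
  have hCC : 10000 * C₁ * C₃ * k = 10000 * (C₁ * k * C₃) := by ring
  refine ⟨D, ?_, hfin.mono (le_of_eq hVdef) ?_⟩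
  · rw [hCC]
    calc (D : ℝ) ≤ 1500 * κ₁ := hD3
      _ = 4500 * (C₁ * k) := by rw [hκ₁]; ring
      _ ≤ _ := by linarith
  · calc (5 : ℝ) ^ D * exp (C₁ * k) ≤ exp (9000 * (C₁ * k)) * exp (C₁ * k) := by gcongr
      _ = exp (9000 * (C₁ * k) + C₁ * k) := (Real.exp_add _ _).symm
      _ ≤ exp (10000 * C₁ * C₃ * k) := by
          rw [hCC]
          refine Real.exp_le_exp.2 ?_
          linarith

/-- THE THEOREM. -/
theorem efficient (ε : ℝ) (hε : 0 < ε) :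
    ∃ C : ℝ, 0 < C ∧ ∀ (K : ℝ) (A : Finset ℤ), A.Nonempty →
      (((A + A).card : ℝ) ≤ K * (A.card : ℝ)) →
      ∃ (d : ℕ) (B : Set (Fin d → ℝ)) (v : Fin d → ℤ) (T : Finset ℤ) (N : ℕ),
        (d : ℝ) ≤ C * (1 + Real.log K) ∧
        Convex ℝ B ∧ IsCompact B ∧ (interior B).Nonempty ∧ (∀ x ∈ B, -x ∈ B) ∧
        N = {x : Fin d → ℤ | (fun i => (x i : ℝ)) ∈ B}.ncard ∧
        N ≤ A.card ∧ (A.card : ℝ) ≤ Real.exp (C * (1 + Real.log K) ^ (1 + ε)) * N ∧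
        (T.card : ℝ) * N ≤ C * K ^ C * A.card ∧
        (∀ x y : Fin d → ℤ, (fun i => (x i : ℝ)) ∈ B → (fun i => (y i : ℝ)) ∈ B →
          ∑ i, v i * x i = ∑ i, v i * y i → x = y) ∧
        ∀ a ∈ A, ∃ t ∈ T, ∃ x : Fin d → ℤ,
          (fun i => (x i : ℝ)) ∈ B ∧ a = t + ∑ i, v i * x i := by
  obtain ⟨C, hC, h⟩ := covering ε hε
  refine ⟨exp C, Real.exp_pos _, ?_⟩
  intro K A hA hAA
  have hA0 : (0 : ℝ) < A.card := by exact_mod_cast hA.card_pos
  have hK1 : 1 ≤ K := by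
    have h1 : A.card ≤ (A + A).card := Finset.card_le_card_add_left hA
    have h2 : (A.card : ℝ) ≤ (A + A).card := by exact_mod_cast h1
    by_contra hcon
    push Not at hcon
    have h3 : K * A.card < 1 * A.card := by gcongr
    linarith
  have hK0 : 0 < K := by linarith
  have hlog := Real.log_nonneg hK1
  obtain ⟨k, hk⟩ : ∃ k : ℝ, k = 1 + Real.log K := ⟨_, rfl⟩
  have hk1 : 1 ≤ k := by linarith
  have hKk : K ≤ exp k := by
    calc K = exp (Real.log K) := (Real.exp_log hK0).symm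
      _ ≤ exp k := by gcongr; linarith
  have hCe : C ≤ exp C := by
    have := Real.add_one_le_exp C
    linarith
  obtain ⟨D, hD, d, B, v, T, h1, h2, h3, h4, h5, h6, h7, h8, h9, h10⟩ :=
    h k A hk1 hA (hAA.trans (by gcongr))
  rw [← hk]
  refine ⟨d, B, v, T, _, ?_, h2, h3, h4, h5, rfl, h6, h7.trans ?_, h8.trans ?_, h9, h10⟩
  · calc (d : ℝ) ≤ D := by exact_mod_cast h1
      _ ≤ C * k := hD
      _ ≤ exp C * k := by gcongr
  · gcongr
  · have e1 : exp (C * k) = exp C * K ^ C := by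
      rw [hk, mul_add, mul_one, Real.exp_add, Real.rpow_def_of_pos hK0, mul_comm C (Real.log K)]
    rw [e1]
    have e2 : K ^ C ≤ K ^ (exp C) := Real.rpow_le_rpow_of_exponent_le hK1 hCe
    gcongr

end Pool.Agent.OST
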