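import Pool.Agent.OSP_h95.Group

/-!
# From an entropy bound to a set containing most sums `a + D`, `D` in a small ball
-/

set_option autoImplicit false

namespace Pool.Agent.OST

open Finset Real Pool.Agent.QFR Pool.Agent.OSP
open scoped Pointwise

/-- the masses of `X + T` -/
noncomputable def Popular2_mu {G : Type} [AddCommGroup G] [Fintype G] [DecidableEq G]
    (A : Finset G) (T : Fam G) (i : T.ι) (s : G) : ℝ := conv (QFR.unif A) (T.m i) s

section Aux

variable {G : Type} [AddCommGroup G] [Fintype G] [DecidableEq G]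

theorem Popular2_mu_nonneg (A : Finset G) (T : Fam G) (i : T.ι) (s : G) :
    0 ≤ Popular2_mu A T i s := conv_nonneg (unif_nonneg A) (T.nn i) s

theorem Popular2_sum_mu (A : Finset G) (hA : A.Nonempty) (T : Fam G) (i : T.ι) :
    ∑ s, Popular2_mu A T i s = ∑ x, T.m i x := by
  unfold Popular2_mu
  rw [sum_conv, sum_unif hA, one_mul]

theorem Popular2_mu_eq (A : Finset G) (T : Fam G) (i : T.ι) (s : G) :
    Popular2_mu A T i s = (A.card : ℝ)⁻¹ * ∑ a ∈ A, T.m i (s - a) := by
  unfold Popular2_mu conv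
  have h : ∀ y, QFR.unif A y * T.m i (s - y) = if y ∈ A then (A.card : ℝ)⁻¹ * T.m i (s - y)
      else 0 := by
    intro y
    unfold QFR.unif
    split_ifs <;> ring
  rw [Finset.sum_congr rfl fun y _ => h y, Finset.sum_ite_mem, Finset.univ_inter,
    Finset.mul_sum]

theorem Popular2_mu_le (A : Finset G) (T : Fam G) (i : T.ι) (s : G) :
    Popular2_mu A T i s ≤ (A.card : ℝ)⁻¹ * ∑ x, T.m i x := by
  rw [Popular2_mu_eq]
  refine mul_le_mul_of_nonneg_left ?_ (by positivity)
  calc ∑ a ∈ A, T.m i (s - a) ≤ ∑ a, T.m i (s - a) :=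
        Finset.sum_le_sum_of_subset_of_nonneg (Finset.subset_univ _) fun _ _ _ => T.nn i _
    _ = ∑ x, T.m i x := Fintype.sum_equiv (Equiv.subLeft s) _ _ fun x => rfl

theorem Popular2_H (A : Finset G) (hA : A.Nonempty) (T : Fam G) :
    ((Fam.unif A hA).add T).H =
      ∑ i, ∑ s, Popular2_mu A T i s * (Real.log (∑ x, T.m i x) -
        Real.log (Popular2_mu A T i s)) := by
  have h1 : ((Fam.unif A hA).add T).H = ∑ i, ent (Popular2_mu A T i) := by
    show ∑ i : Unit × T.ι, ent (conv (QFR.unif A) (T.m i.2)) = _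
    rw [Fintype.sum_prod_type]
    simp only [Finset.univ_unique, Finset.sum_singleton]
    rfl
  rw [h1]
  refine Finset.sum_congr rfl fun i _ => ?_
  unfold ent
  rw [Popular2_sum_mu A hA T i]
  have h2 : negMulLog (∑ x, T.m i x) = -∑ s, Popular2_mu A T i s * Real.log (∑ x, T.m i x) := by
    rw [← Finset.sum_mul, Popular2_sum_mu A hA T i]
    unfold negMulLog
    ring
  rw [h2, sub_neg_eq_add, ← Finset.sum_add_distrib]
  refine Finset.sum_congr rfl fun s _ => ?_
  unfold negMulLog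
  ring

theorem Popular2_shift (A : Finset G) (hA : A.Nonempty) (T : Fam G) (D : G) :
    ∑ i, ∑ s, |Popular2_mu A T i (s - D) - Popular2_mu A T i s| ≤
      ∑ i, ∑ x, |T.m i (x - D) - T.m i x| := by
  have hn : (0 : ℝ) < A.card := by exact_mod_cast hA.card_pos
  refine Finset.sum_le_sum fun i _ => ?_
  have h1 : ∀ s, |Popular2_mu A T i (s - D) - Popular2_mu A T i s| ≤
      (A.card : ℝ)⁻¹ * ∑ a ∈ A, |T.m i (s - a - D) - T.m i (s - a)| := by
    intro s
    rw [Popular2_mu_eq, Popular2_mu_eq, ← mul_sub, abs_mul, abs_of_pos (inv_pos.2 hn),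
      ← Finset.sum_sub_distrib]
    refine mul_le_mul_of_nonneg_left ?_ (by positivity)
    refine (Finset.abs_sum_le_sum_abs _ _).trans (le_of_eq ?_)
    refine Finset.sum_congr rfl fun a _ => ?_
    rw [sub_right_comm]
  refine (Finset.sum_le_sum fun s _ => h1 s).trans (le_of_eq ?_)
  rw [← Finset.mul_sum, Finset.sum_comm]
  have h2 : ∀ a ∈ A, ∑ s, |T.m i (s - a - D) - T.m i (s - a)| =
      ∑ x, |T.m i (x - D) - T.m i x| := by
    intro a _
    exact Fintype.sum_equiv (Equiv.subRight a) _ _ fun s => rfl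
  rw [Finset.sum_congr rfl h2, Finset.sum_const, nsmul_eq_mul, ← mul_assoc,
    inv_mul_cancel₀ hn.ne', one_mul]

theorem Popular2_count (A B : Finset G) (hA : A.Nonempty) (T : Fam G)
    (E : T.ι → Finset G) :
    (A.card : ℝ) * ∑ D ∈ B, ∑ i, ∑ s ∈ E i, Popular2_mu A T i (s - D) =
      ∑ i, ∑ t, T.m i t * ∑ a ∈ A, ((B.filter fun D => a + t + D ∈ E i).card : ℝ) := by
  have hn : (0 : ℝ) < A.card := by exact_mod_cast hA.card_pos
  have h1 : ∀ D i, ∑ s ∈ E i, Popular2_mu A T i (s - D) =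
      (A.card : ℝ)⁻¹ * ∑ a ∈ A, ∑ t, T.m i t * (if a + t + D ∈ E i then 1 else 0) := by
    intro D i
    rw [Finset.sum_congr rfl fun s _ => Popular2_mu_eq A T i (s - D), ← Finset.mul_sum,
      Finset.sum_comm]
    congr 1
    refine Finset.sum_congr rfl fun a _ => ?_
    have h2 : ∑ s ∈ E i, T.m i (s - D - a) = ∑ s, if s ∈ E i then T.m i (s - D - a) else 0 := by
      rw [Finset.sum_ite_mem, Finset.univ_inter]
    rw [h2]
    refine Fintype.sum_equiv ((Equiv.subRight D).trans (Equiv.subRight a)) _ _ fun s => ?_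
    have h3 : a + ((Equiv.subRight D).trans (Equiv.subRight a)) s + D = s := by
      simp only [Equiv.trans_apply, Equiv.subRight_apply]
      abel
    rw [h3]
    simp only [Equiv.trans_apply, Equiv.subRight_apply]
    split_ifs <;> ring
  have h4 : ∀ (i : T.ι) (t : G), T.m i t * ∑ a ∈ A, ((B.filter fun D => a + t + D ∈ E i).card : ℝ) =
      ∑ D ∈ B, ∑ a ∈ A, T.m i t * (if a + t + D ∈ E i then 1 else 0) := by
    intro i t
    rw [Finset.mul_sum, Finset.sum_comm]
    refine Finset.sum_congr rfl fun a _ => ?_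
    rw [← Finset.mul_sum, Finset.sum_boole]
  simp only [h4, h1]
  rw [← Finset.sum_congr rfl fun D _ => Finset.mul_sum _ _ _, ← Finset.mul_sum, ← mul_assoc,
    mul_inv_cancel₀ hn.ne', one_mul, Finset.sum_comm]
  refine Finset.sum_congr rfl fun i _ => ?_
  rw [Finset.sum_comm]
  rw [Finset.sum_congr rfl fun (a : G) _ => Finset.sum_comm]
  rw [Finset.sum_comm]
  refine Finset.sum_congr rfl fun t _ => ?_
  rw [Finset.sum_comm]

end Aux

/-- Write `μ i s = (X + T).m i s = |A|⁻¹ ∑ a ∈ A, T.m i (s - a)` (`X = unif A`; the index type of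
`X.add T` is `Unit × T.ι`), `p i = ∑ x, T.m i x = ∑ s, μ i s`.  The entropy is
`H(X+T) = ∑ i, ∑ s, μ i s * log (p i / μ i s)` (see the definitions of `Fam.H` and `ent`), and
`μ i s ≤ p i / |A|`, so that `Y i s = log (p i / μ i s) - log |A| ≥ 0` and `∑ μ Y ≤ q`.
Let `E i = {s | μ i s ≥ p i * exp (-4 q) / |A|, μ i s > 0}` (so `|E i| ≤ exp (4 q) |A|` as
`∑ s, μ i s = p i`).  Markov: if `q > 0`, the pairs with `Y > 4 q` have mass at most `1/4`; if
`q = 0` they have mass `0`.  So `∑ i, ∑ s ∈ E i, μ i s ≥ 3/4`.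
For `D ∈ B`: `∑ i, ∑ s ∈ E i, μ i (s - D) ≥ 3/4 - ∑ i, ∑ s, |μ i (s - D) - μ i s| ≥ 3/4 -
∑ i, ∑ x, |T.m i (x - D) - T.m i x| ≥ 3/4 - 2 * √(hel T D) ≥ 5/8` (`OSP.l1_le`).
Sum over `D ∈ B`: `∑ i, ∑ t, T.m i t * #{(a, D) ∈ A × B | a + t + D ∈ E i} ≥ (5/8) |A| |B|`; as
`∑ i, ∑ t, T.m i t = 1` some `(i, t)` has `#{(a, D) | a + t + D ∈ E i} ≥ (5/8) |A| |B|`; take
`Z = E i` translated by `-t`. -/
theorem popular2 {G : Type} [AddCommGroup G] [Fintype G] [DecidableEq G] (A : Finset G)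
    (hA : A.Nonempty) (T : Fam G) {q : ℝ} (hq : 0 ≤ q) (B : Finset G)
    (hB : ∀ D ∈ B, hel T D ≤ (1 / 16) ^ 2)
    (hX : ((Fam.unif A hA).add T).H ≤ Real.log A.card + q) :
    ∃ Z : Finset G, (Z.card : ℝ) ≤ exp (4 * q) * A.card ∧
      5 / 8 * ((A.card : ℝ) * B.card) ≤
        ∑ a ∈ A, ((B.filter fun D => a + D ∈ Z).card : ℝ) := by
  have hn : (0 : ℝ) < A.card := by exact_mod_cast hA.card_pos
  obtain ⟨μ, hμ⟩ : ∃ μ : T.ι → G → ℝ, μ = Popular2_mu A T := ⟨_, rfl⟩
  obtain ⟨P, hP⟩ : ∃ P : T.ι → ℝ, P = fun i => ∑ x, T.m i x := ⟨_, rfl⟩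
  have hμ0 : ∀ i s, 0 ≤ μ i s := fun i s => by rw [hμ]; exact Popular2_mu_nonneg A T i s
  have hμP : ∀ i, ∑ s, μ i s = P i := fun i => by rw [hμ, hP]; exact Popular2_sum_mu A hA T i
  have hμle : ∀ i s, A.card * μ i s ≤ P i := by
    intro i s
    have h := Popular2_mu_le A T i s
    rw [← hμ] at h
    rw [hP]
    calc A.card * μ i s ≤ A.card * ((A.card : ℝ)⁻¹ * ∑ x, T.m i x) := by gcongr
      _ = ∑ x, T.m i x := by rw [← mul_assoc, mul_inv_cancel₀ hn.ne', one_mul]
  have hP1 : ∑ i, P i = 1 := by rw [hP]; exact T.tot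
  have hμ1 : ∑ i, ∑ s, μ i s = 1 := by rw [Finset.sum_congr rfl fun i _ => hμP i, hP1]
  obtain ⟨Y, hY⟩ : ∃ Y : T.ι → G → ℝ, Y = fun i s =>
    Real.log (P i) - Real.log (μ i s) - Real.log A.card := ⟨_, rfl⟩
  have hsumY : ∑ i, ∑ s, μ i s * Y i s ≤ q := by
    rw [Popular2_H A hA T] at hX
    have e1 : ∑ i, ∑ s, μ i s * Y i s =
        ∑ i, ∑ s, μ i s * (Real.log (P i) - Real.log (μ i s)) -
          (∑ i, ∑ s, μ i s) * Real.log A.card := by
      rw [Finset.sum_mul, ← Finset.sum_sub_distrib]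
      refine Finset.sum_congr rfl fun i _ => ?_
      rw [Finset.sum_mul, ← Finset.sum_sub_distrib]
      refine Finset.sum_congr rfl fun s _ => ?_
      rw [hY]
      ring
    rw [e1, hμ1, one_mul, hP, hμ]
    linarith
  have hYnn : ∀ i s, 0 < μ i s → 0 ≤ Y i s := by
    intro i s h
    rw [hY]
    have h2 : Real.log (A.card * μ i s) ≤ Real.log (P i) :=
      Real.log_le_log (by positivity) (hμle i s)
    rw [Real.log_mul hn.ne' h.ne'] at h2
    simp only
    linarith
  have hμY : ∀ i s, 0 ≤ μ i s * Y i s := by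
    intro i s
    rcases eq_or_lt_of_le (hμ0 i s) with h | h
    · rw [← h, zero_mul]
    · exact mul_nonneg h.le (hYnn i s h)
  obtain ⟨E, hE⟩ : ∃ E : T.ι → Finset G, E = fun i => Finset.univ.filter fun s =>
    0 < μ i s ∧ P i * exp (-(4 * q)) ≤ A.card * μ i s := ⟨_, rfl⟩
  have hEm : ∀ i s, s ∈ E i ↔ 0 < μ i s ∧ P i * exp (-(4 * q)) ≤ A.card * μ i s := by
    intro i s
    rw [hE]
    simp
  have hEcard : ∀ i, ((E i).card : ℝ) ≤ exp (4 * q) * A.card := by
    intro i
    have hPi : 0 ≤ P i := by rw [← hμP i]; exact Finset.sum_nonneg fun s _ => hμ0 i s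
    rcases eq_or_lt_of_le hPi with h | h
    · have : E i = ∅ := by
        rw [Finset.eq_empty_iff_forall_notMem]
        intro s hs
        have h1 := ((hEm i s).1 hs).1
        have h2 := hμle i s
        rw [← h] at h2
        have : 0 < A.card * μ i s := by positivity
        linarith
      rw [this]
      simp only [Finset.card_empty, Nat.cast_zero]
      positivity
    · have h1 : ((E i).card : ℝ) * (P i * exp (-(4 * q))) ≤ ∑ s ∈ E i, A.card * μ i s := by
        rw [← nsmul_eq_mul, ← Finset.sum_const]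
        exact Finset.sum_le_sum fun s hs => ((hEm i s).1 hs).2
      have h2 : ∑ s ∈ E i, A.card * μ i s ≤ A.card * P i := by
        rw [← Finset.mul_sum, ← hμP i]
        refine mul_le_mul_of_nonneg_left ?_ hn.le
        exact Finset.sum_le_sum_of_subset_of_nonneg (Finset.subset_univ _) fun s _ _ => hμ0 i s
      have h3 : ((E i).card : ℝ) * exp (-(4 * q)) ≤ A.card := by
        refine le_of_mul_le_mul_right ?_ h
        calc ((E i).card : ℝ) * exp (-(4 * q)) * P i = (E i).card * (P i * exp (-(4 * q))) := by ring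
          _ ≤ _ := h1.trans h2
      have h4 := mul_le_mul_of_nonneg_left h3 (exp_pos (4 * q)).le
      have h5 : exp (4 * q) * (((E i).card : ℝ) * exp (-(4 * q))) = (E i).card := by
        have : exp (4 * q) * exp (-(4 * q)) = 1 := by
          rw [← Real.exp_add, add_neg_cancel, Real.exp_zero]
        linear_combination ((E i).card : ℝ) * this
      rw [h5] at h4
      exact h4
  have hYbig : ∀ i s, s ∉ E i → 0 < μ i s → 4 * q < Y i s := by
    intro i s hs h
    have h1 : A.card * μ i s < P i * exp (-(4 * q)) := by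
      by_contra hcon
      exact hs ((hEm i s).2 ⟨h, not_lt.1 hcon⟩)
    have hPi : 0 < P i := by
      have h2 := hμle i s
      have : 0 < A.card * μ i s := by positivity
      linarith
    have h3 := Real.log_lt_log (by positivity) h1
    rw [Real.log_mul hn.ne' h.ne', Real.log_mul hPi.ne' (exp_pos _).ne', Real.log_exp] at h3
    rw [hY]
    simp only
    linarith
  have hout : ∑ i, ∑ s ∈ (E i)ᶜ, μ i s ≤ 1 / 4 := by
    have hle : ∑ i, ∑ s ∈ (E i)ᶜ, μ i s * Y i s ≤ q := by
      refine le_trans ?_ hsumY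
      refine Finset.sum_le_sum fun i _ => ?_
      exact Finset.sum_le_sum_of_subset_of_nonneg (Finset.subset_univ _) fun s _ _ => hμY i s
    rcases eq_or_lt_of_le hq with hq0 | hq0
    · rw [← hq0] at hle
      have h8 : ∑ i, ∑ s ∈ (E i)ᶜ, μ i s = 0 := by
        refine Finset.sum_eq_zero fun i _ => Finset.sum_eq_zero fun s hs => ?_
        by_contra hne
        have hpos : 0 < μ i s := lt_of_le_of_ne (hμ0 i s) (Ne.symm hne)
        rw [Finset.mem_compl] at hs
        have h9 : 0 < μ i s * Y i s := mul_pos hpos (by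
          have := hYbig i s hs hpos
          linarith)
        have h10 : μ i s * Y i s ≤ ∑ s ∈ (E i)ᶜ, μ i s * Y i s :=
          Finset.single_le_sum (f := fun s => μ i s * Y i s) (fun s _ => hμY i s)
            (Finset.mem_compl.2 hs)
        have h11 : ∑ s ∈ (E i)ᶜ, μ i s * Y i s ≤ ∑ i, ∑ s ∈ (E i)ᶜ, μ i s * Y i s :=
          Finset.single_le_sum (f := fun i => ∑ s ∈ (E i)ᶜ, μ i s * Y i s)
            (fun i _ => Finset.sum_nonneg fun s _ => hμY i s) (Finset.mem_univ i)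
        linarith
      rw [h8]
      norm_num
    · have h6 : ∑ i, ∑ s ∈ (E i)ᶜ, 4 * q * μ i s ≤ ∑ i, ∑ s ∈ (E i)ᶜ, μ i s * Y i s := by
        refine Finset.sum_le_sum fun i _ => Finset.sum_le_sum fun s hs => ?_
        rw [Finset.mem_compl] at hs
        rcases eq_or_lt_of_le (hμ0 i s) with h0 | h0
        · rw [← h0, mul_zero, zero_mul]
        · rw [mul_comm (4 * q)]
          exact mul_le_mul_of_nonneg_left (hYbig i s hs h0).le h0.le
      have h7 : ∑ i, ∑ s ∈ (E i)ᶜ, 4 * q * μ i s = 4 * q * ∑ i, ∑ s ∈ (E i)ᶜ, μ i s := by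
        rw [Finset.mul_sum]
        exact Finset.sum_congr rfl fun i _ => (Finset.mul_sum _ _ _).symm
      rw [h7] at h6
      have h8 : 4 * q * ∑ i, ∑ s ∈ (E i)ᶜ, μ i s ≤ 4 * q * (1 / 4) := by linarith
      exact le_of_mul_le_mul_left h8 (by linarith)
  have hin : 3 / 4 ≤ ∑ i, ∑ s ∈ E i, μ i s := by
    have h1 : ∑ i, ∑ s ∈ E i, μ i s + ∑ i, ∑ s ∈ (E i)ᶜ, μ i s = 1 := by
      rw [← Finset.sum_add_distrib, ← hμ1]
      exact Finset.sum_congr rfl fun i _ => Finset.sum_add_sum_compl (E i) (μ i)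
    linarith
  have hD : ∀ D ∈ B, 5 / 8 ≤ ∑ i, ∑ s ∈ E i, μ i (s - D) := by
    intro D hDB
    have h1 := hB D hDB
    have h2 : √(hel T D) ≤ 1 / 16 := by
      rw [Real.sqrt_le_iff]
      exact ⟨by norm_num, h1⟩
    have h3 := l1_le T D
    have h4 := Popular2_shift A hA T D
    rw [← hμ] at h4
    have h5 : ∑ i, ∑ s ∈ E i, μ i s - ∑ i, ∑ s ∈ E i, μ i (s - D) ≤
        ∑ i, ∑ s, |μ i (s - D) - μ i s| := by
      rw [← Finset.sum_sub_distrib]
      refine Finset.sum_le_sum fun i _ => ?_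
      rw [← Finset.sum_sub_distrib]
      calc ∑ s ∈ E i, (μ i s - μ i (s - D)) ≤ ∑ s ∈ E i, |μ i (s - D) - μ i s| := by
            refine Finset.sum_le_sum fun s _ => ?_
            rw [abs_sub_comm]
            exact le_abs_self _
        _ ≤ _ := Finset.sum_le_sum_of_subset_of_nonneg (Finset.subset_univ _)
            fun s _ _ => abs_nonneg _
    linarith
  have hcount := Popular2_count A B hA T E
  rw [← hμ] at hcount
  have hlow : 5 / 8 * ((A.card : ℝ) * B.card) ≤ ∑ i, ∑ t, T.m i t *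
      ∑ a ∈ A, ((B.filter fun D => a + t + D ∈ E i).card : ℝ) := by
    rw [← hcount]
    have h1 : 5 / 8 * (B.card : ℝ) ≤ ∑ D ∈ B, ∑ i, ∑ s ∈ E i, μ i (s - D) := by
      rw [mul_comm, ← nsmul_eq_mul, ← Finset.sum_const]
      exact Finset.sum_le_sum hD
    calc 5 / 8 * ((A.card : ℝ) * B.card) = A.card * (5 / 8 * B.card) := by ring
      _ ≤ _ := by gcongr
  obtain ⟨i, t, hit⟩ : ∃ i t, 5 / 8 * ((A.card : ℝ) * B.card) ≤
      ∑ a ∈ A, ((B.filter fun D => a + t + D ∈ E i).card : ℝ) := by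
    by_contra hcon
    push Not at hcon
    have h1 : ∑ i, ∑ t, T.m i t * ∑ a ∈ A, ((B.filter fun D => a + t + D ∈ E i).card : ℝ) <
        ∑ i, ∑ t, T.m i t * (5 / 8 * ((A.card : ℝ) * B.card)) := by
      have hex : ∃ i t, 0 < T.m i t := by
        by_contra hc
        push Not at hc
        have : ∑ i, ∑ x, T.m i x ≤ 0 := Finset.sum_nonpos fun i _ =>
          Finset.sum_nonpos fun x _ => hc i x
        rw [T.tot] at this
        linarith
      obtain ⟨i, t, h⟩ := hex
      refine Finset.sum_lt_sum (fun i _ => Finset.sum_le_sum fun t _ =>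
        mul_le_mul_of_nonneg_left (hcon i t).le (T.nn i t)) ⟨i, Finset.mem_univ i, ?_⟩
      refine Finset.sum_lt_sum (fun t _ =>
        mul_le_mul_of_nonneg_left (hcon i t).le (T.nn i t)) ⟨t, Finset.mem_univ t, ?_⟩
      exact mul_lt_mul_of_pos_left (hcon i t) h
    have h2 : ∑ i, ∑ t, T.m i t * (5 / 8 * ((A.card : ℝ) * B.card)) =
        5 / 8 * ((A.card : ℝ) * B.card) := by
      rw [Finset.sum_congr rfl fun i _ => (Finset.sum_mul _ _ _).symm, ← Finset.sum_mul, T.tot,
        one_mul]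
    rw [h2] at h1
    linarith
  refine ⟨(E i).image fun s => s - t, ?_, ?_⟩
  · refine le_trans ?_ (hEcard i)
    exact_mod_cast Finset.card_image_le
  · refine hit.trans ?_
    refine Finset.sum_le_sum fun a _ => ?_
    have : (B.filter fun D => a + t + D ∈ E i) ⊆
        B.filter fun D => a + D ∈ (E i).image fun s => s - t := by
      intro D hDm
      rw [Finset.mem_filter] at hDm ⊢
      refine ⟨hDm.1, Finset.mem_image.2 ⟨_, hDm.2, ?_⟩⟩
      abel
    exact_mod_cast Finset.card_le_card this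

end Pool.Agent.OST
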