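import Pool.Agent.OST_h95.Steps
import Pool.Agent.OST_h95.Popular2
import Pool.Agent.OST_h95.CombA

/-!
# A Bourgain system absorbed by a set of small doubling, in a finite abelian group
-/

set_option autoImplicit false

namespace Pool.Agent.OST

open Finset Real Pool.Agent.QFR Pool.Agent.OSP
open scoped Pointwise

theorem zero_mem_hball {G : Type} [AddCommGroup G] [Fintype G] (T : Fam G) (R : ℝ) :
    (0 : G) ∈ hball T R := by
  rw [mem_hball, hel_zero]
  positivity

theorem neg_mem_hball {G : Type} [AddCommGroup G] [Fintype G] (T : Fam G) (R : ℝ) {x : G}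
    (hx : x ∈ hball T R) : -x ∈ hball T R := by
  rw [mem_hball] at hx ⊢
  rw [hel_neg]
  exact hx

theorem add_mem_hball {G : Type} [AddCommGroup G] [Fintype G] (T : Fam G) {R S : ℝ} (hR : 0 ≤ R)
    (hS : 0 ≤ S) {x y : G} (hx : x ∈ hball T R) (hy : y ∈ hball T S) : x + y ∈ hball T (R + S) := by
  rw [mem_hball] at hx hy ⊢
  have h1 := sqrt_hel_add T x y
  have h2 : √(hel T x) ≤ R := by
    rw [Real.sqrt_le_left hR]
    exact hx
  have h3 : √(hel T y) ≤ S := by
    rw [Real.sqrt_le_left hS]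
    exact hy
  have h4 : √(hel T (x + y)) ≤ R + S := by linarith
  rwa [Real.sqrt_le_left (by linarith)] at h4

theorem hball_mono {G : Type} [AddCommGroup G] [Fintype G] (T : Fam G) {R S : ℝ} (hR : 0 ≤ R)
    (hS : R ≤ S) : hball T R ⊆ hball T S := by
  intro x hx
  rw [mem_hball] at hx ⊢
  exact hx.trans (by gcongr)

/-- absorption of a small Hellinger ball -/
theorem absorb2 {G : Type} [AddCommGroup G] [Fintype G] [DecidableEq G] (A B B3 : Finset G)
    (hA : A.Nonempty) (hB : B.Nonempty) (T : Fam G) {q k F : ℝ} (hq : 0 ≤ q) (hF0 : 0 ≤ F)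
    (hhel : ∀ D ∈ B, hel T D ≤ (1 / 16) ^ 2)
    (h3 : ∀ x ∈ B, ∀ y ∈ B, ∀ z ∈ B, x - y + z ∈ B3) (hF : (B3.card : ℝ) ≤ F * B.card)
    (hAA' : ((A - A).card : ℝ) ≤ exp (2 * k) * A.card)
    (hX : ((Fam.unif A hA).add T).H ≤ Real.log A.card + q) :
    ((A + B).card : ℝ) ≤ 8 * F * exp (2 * k + 4 * q) * A.card := by
  obtain ⟨Z, hZ, hsum⟩ := popular2 A hA T hq B hhel hX
  obtain ⟨A', hA', h4, h5⟩ := disjoint2 A B Z B3 hB h3 hsum
  have hBpos : (0 : ℝ) < B.card := by exact_mod_cast hB.card_pos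
  have h6 : ((A' + B).card : ℝ) ≤ (2 * F * exp (4 * q)) * A.card := by
    have h7 : ((A' + B).card : ℝ) * B.card ≤ (2 * F * exp (4 * q)) * A.card * B.card := by
      calc ((A' + B).card : ℝ) * B.card ≤ 2 * Z.card * B3.card := h5
        _ ≤ 2 * (exp (4 * q) * A.card) * (F * B.card) := by gcongr
        _ = _ := by ring
    exact le_of_mul_le_mul_right h7 hBpos
  have h8 := triangle2 A A' B hA hA' (by positivity) h4 hAA' h6
  refine h8.trans (le_of_eq ?_)
  rw [Real.exp_add]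
  ring

theorem group_system (ε : ℝ) (hε : 0 < ε) : ∃ C : ℝ, 1 ≤ C ∧
    ∀ (G : Type) [AddCommGroup G] [Fintype G] [DecidableEq G]
    (A : Finset G) (_ : A.Nonempty) (k : ℝ) (r : ℕ), 1 ≤ k →
    ((A + A).card : ℝ) ≤ exp k * A.card → ((A - A).card : ℝ) ≤ exp (2 * k) * A.card →
    ∃ B : ℕ → Finset G, (∀ i, (0 : G) ∈ B i) ∧ (∀ i, ∀ x ∈ B i, -x ∈ B i) ∧
      (∀ i, ∀ x ∈ B (i + 1), ∀ y ∈ B (i + 1), x + y ∈ B i) ∧
      (∀ i < r, ((B i).card : ℝ) ≤ exp (C * k) * (B (i + 1)).card) ∧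
      ((A + B 0).card : ℝ) ≤ exp (C * k) * A.card ∧
      (A.card : ℝ) ≤ exp (C * k ^ (1 + ε)) * (B 0).card := by
  obtain ⟨η, hη, hpack⟩ := pack
  obtain ⟨B, C, c, hB, hC, hc, hnice⟩ := nice_of_mini hη
  obtain ⟨P, hP1, hpack⟩ := hpack B C hB hC
  obtain ⟨lam₀, hlam₀, hlam₁, CJ, hCJ1, hsteps⟩ := exists_steps_eps (ε / 9) (by positivity)
  -- constants
  obtain ⟨c', hc'⟩ : ∃ c' : ℝ, c' = min c (1 / 16) := ⟨_, rfl⟩
  have hc'0 : 0 < c' := by rw [hc']; exact lt_min hc (by norm_num)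
  have hc'c : c' ≤ c := by rw [hc']; exact min_le_left _ _
  have hc'1 : c' ≤ 1 / 16 := by rw [hc']; exact min_le_right _ _
  obtain ⟨lam, hlam⟩ : ∃ lam : ℝ, lam = min c lam₀ := ⟨_, rfl⟩
  have hlam0 : 0 < lam := by rw [hlam]; exact lt_min hc hlam₀
  have hlamc : lam ≤ c := by rw [hlam]; exact min_le_left _ _
  have hlaml : lam ≤ lam₀ := by rw [hlam]; exact min_le_right _ _
  have hlam1 : lam ≤ 1 / 100 := hlaml.trans hlam₁
  obtain ⟨Cy, hCy⟩ : ∃ Cy : ℝ, Cy = 16 * P ^ 8 * 5 ^ 9 / c' ^ 2 := ⟨_, rfl⟩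
  have hCy1 : 1 ≤ Cy := by
    rw [hCy, le_div_iff₀ (by positivity)]
    have h1 : c' ^ 2 ≤ 1 := pow_le_one₀ hc'0.le (by linarith)
    have h2 : 1 ≤ P ^ 8 := one_le_pow₀ hP1
    linarith
  obtain ⟨Dc, hDc⟩ : ∃ Dc : ℝ, Dc = CJ * Cy ^ (ε / 9) := ⟨_, rfl⟩
  have hDc1 : 1 ≤ Dc := by
    rw [hDc]
    exact one_le_mul_of_one_le_of_one_le hCJ1 (Real.one_le_rpow hCy1 (by positivity))
  refine ⟨4 + 16 / lam + 16 * Dc + 15 * P + 10 * P + (8 + 15 * P + 2 + 16 / lam), ?_, ?_⟩
  · have : 0 < 16 / lam := by positivity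
    linarith
  intro G _ _ _ A hA k r hk hAA hAA'
  have hk0 : 0 < k := by linarith
  obtain ⟨κ, hκ⟩ : ∃ κ : ℝ, κ = 4 * k := ⟨_, rfl⟩
  have hκ5 : 1 + κ ≤ 5 * k := by rw [hκ]; linarith
  have hκ0 : 0 < κ := by rw [hκ]; linarith
  obtain ⟨R₀, hR₀⟩ : ∃ R₀ : ℝ, R₀ = c' / (P * (1 + κ)) ^ 4 := ⟨_, rfl⟩
  have hPκ : 1 ≤ P * (1 + κ) := one_le_mul_of_one_le_of_one_le hP1 (by linarith)
  have hPκ4 : 1 ≤ (P * (1 + κ)) ^ 4 := one_le_pow₀ hPκ
  have hR0 : 0 < R₀ := by rw [hR₀]; positivity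
  have hR1 : R₀ * (P * (1 + κ)) ^ 4 = c' := by rw [hR₀]; field_simp
  have hRc : R₀ ≤ c' := by rw [hR₀]; exact div_le_self hc'0.le hPκ4
  -- number of steps
  obtain ⟨j, hj1, hj2⟩ := hsteps (Cy * k ^ 9)
    (one_le_mul_of_one_le_of_one_le hCy1 (one_le_pow₀ hk))
  have hκR : κ ≤ Cy * k ^ 9 * (R₀ ^ 2 / 16) := by
    have h1 : R₀ ^ 2 = c' ^ 2 / (P * (1 + κ)) ^ 8 := by rw [hR₀, div_pow, ← pow_mul]
    have h2 : (P * (1 + κ)) ^ 8 * κ ≤ P ^ 8 * (5 * k) ^ 9 := by
      calc (P * (1 + κ)) ^ 8 * κ ≤ (P * (5 * k)) ^ 8 * (5 * k) := by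
            gcongr; linarith
        _ = _ := by ring
    rw [h1, hCy]
    have h3 : 16 * P ^ 8 * 5 ^ 9 / c' ^ 2 * k ^ 9 * (c' ^ 2 / (P * (1 + κ)) ^ 8 / 16) =
        P ^ 8 * (5 * k) ^ 9 / (P * (1 + κ)) ^ 8 := by
      field_simp
    rw [h3, le_div_iff₀ (by positivity)]
    linarith
  have hj : ((1 + 1 / 100) / 2) ^ j * κ ≤ R₀ ^ 2 / 16 := by
    calc ((1 + 1 / 100) / 2) ^ j * κ ≤ ((1 + 1 / 100) / 2) ^ j * (Cy * k ^ 9 * (R₀ ^ 2 / 16)) := by
          gcongr
      _ = (((1 + 1 / 100) / 2) ^ j * (Cy * k ^ 9)) * (R₀ ^ 2 / 16) := by ring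
      _ ≤ 1 * (R₀ ^ 2 / 16) := by gcongr
      _ = _ := one_mul _
  have hjD : (j : ℝ) * (1 + lam) ^ j ≤ Dc * k ^ ε := by
    calc (j : ℝ) * (1 + lam) ^ j ≤ j * (1 + lam₀) ^ j := by gcongr
      _ ≤ CJ * (Cy * k ^ 9) ^ (ε / 9) := hj2
      _ = Dc * k ^ ε := by
          rw [Real.mul_rpow (by positivity) (by positivity), hDc, mul_assoc,
            ← Real.rpow_natCast k 9, ← Real.rpow_mul hk0.le]
          congr 3
          push_cast
          ring
  -- the error
  obtain ⟨R₁, hR₁⟩ : ∃ R₁ : ℝ, R₁ = R₀ / 3 := ⟨_, rfl⟩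
  have hR1pos : 0 < R₁ := by rw [hR₁]; positivity
  obtain ⟨δ, hδ⟩ : ∃ δ : ℝ, δ = min (c * (R₁ / 2 ^ r) ^ 2)
    (min (R₀ ^ 2 / 32) (min (1 / 2 ^ (j + 2)) k)) := ⟨_, rfl⟩
  have hδ0 : 0 < δ := by
    rw [hδ]
    refine lt_min (by positivity) (lt_min (by positivity) (lt_min (by positivity) hk0))
  have hδ1 : δ ≤ c * (R₁ / 2 ^ r) ^ 2 := by rw [hδ]; exact min_le_left _ _
  have hδ2 : δ ≤ R₀ ^ 2 / 32 := by
    rw [hδ]; exact (min_le_right _ _).trans (min_le_left _ _)
  have hδ3 : δ ≤ 1 / 2 ^ (j + 2) := by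
    rw [hδ]; exact (min_le_right _ _).trans ((min_le_right _ _).trans (min_le_left _ _))
  have hδ4 : δ ≤ k := by
    rw [hδ]; exact (min_le_right _ _).trans ((min_le_right _ _).trans (min_le_right _ _))
  -- the near-minimiser
  obtain ⟨T, hT⟩ := exists_min (Fam.unif A hA) hlam0.le hδ0
  have hM := mini_of_near (Fam.unif A hA) hlam0.le T hT
  have hPhi : Phi (Fam.unif A hA) lam T ≤ κ := by
    have h1 := hT (Fam.unif A hA)
    have h2 := Phi_unif_le A hA hlam0.le hAA hAA'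
    have h3 : (2 + 2 * lam) * k ≤ 3 * k := by
      have : 2 + 2 * lam ≤ 3 := by linarith
      gcongr
    rw [hκ]
    linarith
  obtain ⟨b1, b2, b3⟩ := bounds_of_Phi (Fam.unif A hA) T hlam0 hPhi
  have hX : (Fam.unif A hA).H = Real.log A.card := H_unif A hA
  have hbig := big_ball2 (Fam.unif A hA) T (D := 2 * κ * (Dc * k ^ ε)) hlam0.le hlam1 hδ0.le b1 hM
    b2 b3 hR0 j hj (by linarith) (by
      have : (0 : ℝ) < 2 ^ (j + 2) := by positivity
      calc (2 : ℝ) ^ (j + 2) * δ ≤ 2 ^ (j + 2) * (1 / 2 ^ (j + 2)) := by gcongr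
        _ = 1 := by field_simp) (by gcongr)
  rw [hX] at hbig
  -- one step of covering
  have hstep : ∀ R : ℝ, 0 < R → R ≤ R₀ → R₁ / 2 ^ r ≤ R →
      ((hball T R).card : ℝ) ≤ exp (P * (1 + κ)) * (hball T (2 / 3 * R)).card := by
    intro R hRpos hRle hRge
    refine cover_ball T R (exp (P * (1 + κ))) fun 𝒟 h1 h2 => ?_
    refine hpack G T κ R 𝒟 b1 hRpos ?_ ?_ h2
    · calc R * (P * (1 + κ)) ^ 4 ≤ R₀ * (P * (1 + κ)) ^ 4 := by gcongr
        _ = c' := hR1
        _ ≤ 1 := by linarith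
    · intro D hD
      refine ⟨h1 D hD, ?_⟩
      refine hnice G T lam δ R D hlam0.le hlamc hδ0.le ?_ hRpos ?_ hM (h1 D hD)
      · refine hδ1.trans ?_
        gcongr
      · linarith
  have hpk : P * (1 + κ) ≤ 5 * P * k := by
    calc P * (1 + κ) ≤ P * (5 * k) := by gcongr
      _ = _ := by ring
  have h2r : (1 : ℝ) ≤ 2 ^ r := one_le_pow₀ (by norm_num)
  have hR1r : R₁ / 2 ^ r ≤ R₁ := div_le_self hR1pos.le h2r
  -- three steps at the top
  have htop : ((hball T R₀).card : ℝ) ≤ exp (15 * P * k) * (hball T R₁).card := by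
    have s1 := hstep R₀ hR0 le_rfl (by linarith)
    have s2 := hstep (2 / 3 * R₀) (by positivity) (by linarith) (by linarith)
    have s3 := hstep (2 / 3 * (2 / 3 * R₀)) (by positivity) (by linarith) (by linarith)
    have s4 : ((hball T (2 / 3 * (2 / 3 * (2 / 3 * R₀)))).card : ℝ) ≤ (hball T R₁).card := by
      exact_mod_cast Finset.card_le_card (hball_mono T (by positivity) (by linarith))
    calc ((hball T R₀).card : ℝ)
        ≤ exp (P * (1 + κ)) * (exp (P * (1 + κ)) * (exp (P * (1 + κ)) * (hball T R₁).card)) := by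
          refine s1.trans ?_
          gcongr
          refine s2.trans ?_
          gcongr
          refine s3.trans ?_
          gcongr
      _ = exp (3 * (P * (1 + κ))) * (hball T R₁).card := by
          rw [← mul_assoc, ← mul_assoc, ← Real.exp_add, ← Real.exp_add]
          congr 2
          ring
      _ ≤ exp (15 * P * k) * (hball T R₁).card := by
          refine mul_le_mul_of_nonneg_right (Real.exp_le_exp.2 ?_) (Nat.cast_nonneg _)
          linarith
  refine ⟨fun i => hball T (R₁ / 2 ^ i), fun i => zero_mem_hball T _,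
    fun i x hx => neg_mem_hball T _ hx, ?_, ?_, ?_, ?_⟩
  · intro i x hx y hy
    have h := add_mem_hball T (by positivity) (by positivity) hx hy
    have e : R₁ / 2 ^ (i + 1) + R₁ / 2 ^ (i + 1) = R₁ / 2 ^ i := by
      rw [pow_succ]; ring
    rwa [e] at h
  · intro i hi
    simp only
    have hRi : R₁ / 2 ^ i ≤ R₁ := div_le_self hR1pos.le (one_le_pow₀ (by norm_num))
    have hlow : 2 * (R₁ / 2 ^ r) ≤ R₁ / 2 ^ i := by
      have h1 : (2 : ℝ) ^ (i + 1) ≤ 2 ^ r := pow_le_pow_right₀ (by norm_num) (by omega)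
      have h2 : R₁ / 2 ^ r ≤ R₁ / 2 ^ (i + 1) := by gcongr
      have h3 : 2 * (R₁ / 2 ^ (i + 1)) = R₁ / 2 ^ i := by rw [pow_succ]; field_simp
      linarith
    have hpos : 0 < R₁ / 2 ^ r := by positivity
    have s1 := hstep (R₁ / 2 ^ i) (by positivity) (by linarith) (by linarith)
    have s2 := hstep (2 / 3 * (R₁ / 2 ^ i)) (by positivity) (by linarith) (by linarith)
    have s3 : ((hball T (2 / 3 * (2 / 3 * (R₁ / 2 ^ i)))).card : ℝ) ≤
        (hball T (R₁ / 2 ^ (i + 1))).card := by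
      have e : R₁ / 2 ^ (i + 1) = 1 / 2 * (R₁ / 2 ^ i) := by rw [pow_succ]; ring
      have h5 : 0 < R₁ / 2 ^ i := by positivity
      have h6 : 2 / 3 * (2 / 3 * (R₁ / 2 ^ i)) ≤ R₁ / 2 ^ (i + 1) := by rw [e]; linarith
      have h7 := Finset.card_le_card (hball_mono T (by positivity) h6)
      exact_mod_cast h7
    calc ((hball T (R₁ / 2 ^ i)).card : ℝ)
        ≤ exp (P * (1 + κ)) * (exp (P * (1 + κ)) * (hball T (R₁ / 2 ^ (i + 1))).card) := by
          refine s1.trans ?_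
          gcongr
          refine s2.trans ?_
          gcongr
      _ = exp (2 * (P * (1 + κ))) * (hball T (R₁ / 2 ^ (i + 1))).card := by
          rw [← mul_assoc, ← Real.exp_add]
          congr 2
          ring
      _ ≤ _ := by
          refine mul_le_mul_of_nonneg_right (Real.exp_le_exp.2 ?_) (Nat.cast_nonneg _)
          have h1 : 0 < 16 / lam * k := by positivity
          have h2 : 0 < Dc * k := by positivity
          have h3 : 0 < P * k := by positivity
          have e : (4 + 16 / lam + 16 * Dc + 15 * P + 10 * P + (8 + 15 * P + 2 + 16 / lam)) * k =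
            4 * k + 16 / lam * k + 16 * (Dc * k) + 15 * (P * k) + 10 * (P * k) +
              (8 * k + 15 * (P * k) + 2 * k + 16 / lam * k) := by ring
          rw [e]
          linarith
  · simp only [pow_zero, div_one]
    have hq : κ / lam = 4 / lam * k := by rw [hκ]; ring
    have h1 := absorb2 A (hball T R₁) (hball T R₀) hA ⟨0, zero_mem_hball T _⟩ T
      (q := κ / lam) (k := k) (F := exp (15 * P * k)) (by positivity) (Real.exp_pos _).le
      (by
        intro D hD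
        rw [mem_hball] at hD
        refine hD.trans ?_
        have : R₁ ≤ 1 / 16 := by rw [hR₁]; linarith
        gcongr)
      (by
        intro x hx y hy z hz
        have h2 := add_mem_hball T hR1pos.le hR1pos.le hx (neg_mem_hball T _ hy)
        have h3 := add_mem_hball T (by linarith) hR1pos.le h2 hz
        have e : R₁ + R₁ + R₁ = R₀ := by rw [hR₁]; ring
        rw [e, ← sub_eq_add_neg] at h3
        exact h3) htop hAA' (by rw [hX] at b2; linarith)
    refine h1.trans ?_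
    have h8 : (8 : ℝ) ≤ exp (8 * k) := by
      have := Real.add_one_le_exp (8 * k)
      linarith
    calc 8 * exp (15 * P * k) * exp (2 * k + 4 * (κ / lam)) * A.card
        ≤ exp (8 * k) * exp (15 * P * k) * exp (2 * k + 4 * (κ / lam)) * A.card := by gcongr
      _ = exp (8 * k + 15 * P * k + (2 * k + 4 * (κ / lam))) * A.card := by
          rw [Real.exp_add (8 * k + 15 * P * k), Real.exp_add (8 * k) (15 * P * k)]
      _ ≤ _ := by
          refine mul_le_mul_of_nonneg_right (Real.exp_le_exp.2 ?_) (Nat.cast_nonneg _)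
          rw [hq]
          have h1 : 0 < 16 / lam * k := by positivity
          have h2 : 0 < Dc * k := by positivity
          have h3 : 0 < P * k := by positivity
          have e : (4 + 16 / lam + 16 * Dc + 15 * P + 10 * P + (8 + 15 * P + 2 + 16 / lam)) * k =
            4 * k + 16 / lam * k + 16 * (Dc * k) + 15 * (P * k) + 10 * (P * k) +
              (8 * k + 15 * (P * k) + 2 * k + 16 / lam * k) := by ring
          have e2 : 4 * (4 / lam * k) = 16 / lam * k := by ring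
          rw [e, e2]
          linarith
  · simp only [pow_zero, div_one]
    have hApos : (0 : ℝ) < A.card := by exact_mod_cast hA.card_pos
    have hcard0 : (0 : ℝ) < (hball T R₀).card := by
      exact_mod_cast Finset.card_pos.2 ⟨0, zero_mem_hball T _⟩
    have h1 : (A.card : ℝ) ≤ exp (2 * (2 + 2 * (κ / lam) + 2 * κ * (Dc * k ^ ε))) *
        (hball T R₀).card := by
      have h2 : Real.log A.card ≤ 2 * (2 + 2 * (κ / lam) + 2 * κ * (Dc * k ^ ε)) +
        Real.log (hball T R₀).card := by linarith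
      calc (A.card : ℝ) = exp (Real.log A.card) := (Real.exp_log hApos).symm
        _ ≤ exp (2 * (2 + 2 * (κ / lam) + 2 * κ * (Dc * k ^ ε)) +
            Real.log (hball T R₀).card) := by gcongr
        _ = _ := by rw [Real.exp_add, Real.exp_log hcard0]
    calc (A.card : ℝ) ≤ exp (2 * (2 + 2 * (κ / lam) + 2 * κ * (Dc * k ^ ε))) *
          (exp (15 * P * k) * (hball T R₁).card) := by
            refine h1.trans ?_
            gcongr
      _ = exp (2 * (2 + 2 * (κ / lam) + 2 * κ * (Dc * k ^ ε)) + 15 * P * k) *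
          (hball T R₁).card := by rw [← mul_assoc, ← Real.exp_add]
      _ ≤ _ := by
          refine mul_le_mul_of_nonneg_right (Real.exp_le_exp.2 ?_) (Nat.cast_nonneg _)
          have hk1 : k ≤ k ^ (1 + ε) := by
            calc k = k ^ (1 : ℝ) := (Real.rpow_one k).symm
              _ ≤ k ^ (1 + ε) := Real.rpow_le_rpow_of_exponent_le hk (by linarith)
          have hke : k * k ^ ε = k ^ (1 + ε) := by
            rw [Real.rpow_add hk0, Real.rpow_one]
          have h1k : 1 ≤ k ^ (1 + ε) := hk.trans hk1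
          obtain ⟨z, hz⟩ : ∃ z : ℝ, z = k ^ (1 + ε) := ⟨_, rfl⟩
          rw [← hz] at hk1 hke h1k ⊢
          have e1 : 2 * κ * (Dc * k ^ ε) = 8 * Dc * z := by rw [hκ, ← hke]; ring
          have e2 : κ / lam = 4 / lam * k := by rw [hκ]; ring
          rw [e1, e2]
          have f1 : 4 / lam * k ≤ 4 / lam * z := by gcongr
          have f2 : P * k ≤ P * z := by gcongr
          have f3 : 0 < 16 / lam * z := by positivity
          have f4 : 0 < P * z := by positivity
          have e : (4 + 16 / lam + 16 * Dc + 15 * P + 10 * P + (8 + 15 * P + 2 + 16 / lam)) * z =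
            4 * z + 4 * (4 / lam * z) + 16 * Dc * z + 15 * (P * z) + 10 * (P * z) +
              (8 * z + 15 * (P * z) + 2 * z + 16 / lam * z) := by ring
          rw [e]
          linarith

end Pool.Agent.OST
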