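import Pool.Agent.W_626a77_h71.Lat2

/-!
# Radius and body
-/

set_option autoImplicit false

open scoped Pointwise
open Module

namespace Pool.Agent.OST

open Pool.Agent.W_626a77_h71

section Abs

variable {E : Type*} [NormedAddCommGroup E] [NormedSpace ℝ E]
variable (L : AddSubgroup E) (hL : ∀ s : ℝ, {v : E | v ∈ L ∧ ‖v‖ ≤ s}.Finite)

/-- THE RADIUS (first part of the proof of `W_626a77_h71.assembly`): `s = δ / 2 ^ j` with the least
`j` such that `|S s| ≤ N`; if `j ≥ 1` then `N < |S (2 s)| ≤ 5 ^ D |S s|` by `half_lemma`. -/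
theorem exists_radius [FiniteDimensional ℝ E] (δ : ℝ) (hδ : 0 < δ) (D : ℕ)
    (hD : finrank ℝ (Submodule.span ℝ (S L hL δ : Set E)) ≤ D) (N : ℕ) (hN : 0 < N) {V : ℝ}
    (hV5 : (5 : ℝ) ^ D ≤ V) (hV : (N : ℝ) ≤ V * (S L hL δ).card) :
    ∃ s : ℝ, 0 < s ∧ s ≤ δ ∧ (S L hL s).card ≤ N ∧ (N : ℝ) ≤ V * (S L hL s).card ∧
      ((S L hL s).card : ℝ) ≤ 5 ^ D * (S L hL (s / 2)).card := by
  classical
  have hex := exists_small L hL δ N hN
  obtain ⟨j, hjdef⟩ : ∃ j, j = Nat.find hex := ⟨_, rfl⟩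
  have hj : (S L hL (δ / 2 ^ j)).card ≤ N := by
    rw [hjdef]
    exact Nat.find_spec hex
  have hs0 : 0 < δ / 2 ^ j := by positivity
  have hsδ : δ / 2 ^ j ≤ δ := by
    apply div_le_self hδ.le
    exact one_le_pow₀ (by norm_num)
  have hfr : ∀ t ≤ δ, finrank ℝ (Submodule.span ℝ (S L hL t : Set E)) ≤ D := by
    intro t ht
    refine le_trans ?_ hD
    apply Submodule.finrank_mono
    apply Submodule.span_mono
    exact_mod_cast S_mono L hL ht
  have h5 : ∀ t, 0 < t → t ≤ δ → ((S L hL t).card : ℝ) ≤ 5 ^ D * (S L hL (t / 2)).card := by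
    intro t ht0 ht
    have h := half_lemma L hL t ht0
    have h' : (S L hL t).card ≤ 5 ^ D * (S L hL (t / 2)).card :=
      h.trans (Nat.mul_le_mul_right _ (Nat.pow_le_pow_right (by norm_num) (hfr t ht)))
    exact_mod_cast h'
  refine ⟨δ / 2 ^ j, hs0, hsδ, hj, ?_, h5 _ hs0 hsδ⟩
  rcases Nat.eq_zero_or_pos j with hj0 | hj0
  · rw [hj0, pow_zero, div_one]
    exact hV
  · have hmin := Nat.find_min hex (m := j - 1) (by omega)
    push Not at hmin
    have h2s : δ / 2 ^ (j - 1) = 2 * (δ / 2 ^ j) := by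
      obtain ⟨i, hi⟩ : ∃ i, j = i + 1 := ⟨j - 1, by omega⟩
      rw [hi]
      simp only [Nat.add_sub_cancel]
      rw [pow_succ]
      field_simp
    rw [h2s] at hmin
    have h2sδ : 2 * (δ / 2 ^ j) ≤ δ := by
      rw [← h2s]
      apply div_le_self hδ.le
      exact one_le_pow₀ (by norm_num)
    have e1 := h5 (2 * (δ / 2 ^ j)) (by positivity) h2sδ
    rw [show 2 * (δ / 2 ^ j) / 2 = δ / 2 ^ j by ring] at e1
    have e2 : (N : ℝ) ≤ (S L hL (2 * (δ / 2 ^ j))).card := by exact_mod_cast hmin.le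
    refine e2.trans (e1.trans ?_)
    exact mul_le_mul_of_nonneg_right hV5 (Nat.cast_nonneg _)

/-- THE BODY (second part of the proof of `W_626a77_h71.assembly`; `exists_basis`): a linear
injection `f : ℝ ^ d → E` with `f (ℤ ^ d) ⊆ L` such that every point of `S δ` is in `f (ℤ ^ d)`;
`B = {x | ‖f x‖ ≤ s}`; the lattice points of `B` correspond to `S s`, whence the exact count
(`Set.ncard_congr` or injections both ways). -/
theorem exists_body [FiniteDimensional ℝ E] (π : E →ₗ[ℝ] ℝ) (hπ : ∀ v ∈ L, ∃ n : ℤ, π v = n)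
    (δ : ℝ) (D : ℕ) (hD : finrank ℝ (Submodule.span ℝ (S L hL δ : Set E)) ≤ D) (s : ℝ)
    (hs : 0 < s) (hsδ : s ≤ δ) (hinj : ∀ v ∈ S L hL s, ∀ w ∈ S L hL s, π v = π w → v = w) :
    ∃ (d : ℕ) (B : Set (Fin d → ℝ)) (v : Fin d → ℤ), d ≤ D ∧ Convex ℝ B ∧
      IsCompact B ∧ (interior B).Nonempty ∧ (∀ x ∈ B, -x ∈ B) ∧
      ({x : Fin d → ℤ | (fun i => (x i : ℝ)) ∈ B}.ncard = (S L hL s).card) ∧
      (∀ x y : Fin d → ℤ, (fun i => (x i : ℝ)) ∈ B → (fun i => (y i : ℝ)) ∈ B →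
        ∑ i, v i * x i = ∑ i, v i * y i → x = y) ∧
      ∀ w ∈ S L hL s, ∃ x : Fin d → ℤ, (fun i => (x i : ℝ)) ∈ B ∧
        π w = ((∑ i, v i * x i : ℤ) : ℝ) := by
  classical
  obtain ⟨d, hd⟩ : ∃ d, finrank ℝ (Submodule.span ℝ (S L hL δ : Set E)) = d := ⟨_, rfl⟩
  obtain ⟨b, hb, hbL, hexp⟩ := exists_basis L hL δ d hd
  choose πz hπz using hπ
  let v : Fin d → ℤ := fun i => πz (b i) (hbL i)
  have hv : ∀ i, π (b i) = v i := fun i => hπz _ _
  let f : (Fin d → ℝ) →ₗ[ℝ] E := Fintype.linearCombination ℝ b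
  have hf : ∀ x, f x = ∑ i, x i • b i := fun x => Fintype.linearCombination_apply ℝ b x
  have hfinj : Function.Injective f := by
    rw [injective_iff_map_eq_zero]
    intro x hx
    rw [hf] at hx
    funext i
    exact Fintype.linearIndependent_iff.1 hb x hx i
  have hfcont : Continuous f := f.continuous_of_finiteDimensional
  have hfL : ∀ x : Fin d → ℤ, f (fun i => (x i : ℝ)) ∈ L := by
    intro x
    rw [hf]
    apply L.sum_mem
    intro i _
    rw [Int.cast_smul_eq_zsmul]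
    exact L.zsmul_mem (hbL i) _
  have hπf : ∀ x : Fin d → ℤ, π (f (fun i => (x i : ℝ))) = ((∑ i, v i * x i : ℤ) : ℝ) := by
    intro x
    rw [hf, map_sum]
    push_cast
    apply Finset.sum_congr rfl
    intro i _
    rw [map_smul, hv i, smul_eq_mul, mul_comm]
  have hginj : Function.Injective (fun x : Fin d → ℤ => f (fun i => (x i : ℝ))) := by
    intro x y hxy
    have := hfinj hxy
    funext i
    have h := congrFun this i
    simpa using h
  have hSx : ∀ w ∈ S L hL s, ∃ x : Fin d → ℤ, f (fun i => (x i : ℝ)) = w := by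
    intro w hw
    obtain ⟨x, hx⟩ := hexp w (S_mono L hL hsδ hw)
    exact ⟨x, by rw [hf]; exact hx.symm⟩
  refine ⟨d, {x | ‖f x‖ ≤ s}, v, hd ▸ hD, ?_, ?_, ?_, ?_, ?_, ?_, ?_⟩
  · have : {x : Fin d → ℝ | ‖f x‖ ≤ s} = f ⁻¹' (Metric.closedBall 0 s) := by
      ext x; simp
    rw [this]
    exact (convex_closedBall (0 : E) s).linear_preimage f
  · have : {x : Fin d → ℝ | ‖f x‖ ≤ s} = f ⁻¹' (Metric.closedBall 0 s) := by
      ext x; simp
    rw [this]
    have hce : Topology.IsClosedEmbedding f :=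
      LinearMap.isClosedEmbedding_of_injective (LinearMap.ker_eq_bot.2 hfinj)
    exact hce.isCompact_preimage (isCompact_closedBall _ _)
  · refine ⟨0, ?_⟩
    rw [mem_interior]
    refine ⟨f ⁻¹' (Metric.ball 0 s), ?_, Metric.isOpen_ball.preimage hfcont, ?_⟩
    · intro x hx
      rw [Set.mem_preimage, mem_ball_zero_iff] at hx
      exact hx.le
    · simp [hs]
  · intro x hx
    simp only [Set.mem_ofPred_eq, map_neg, norm_neg] at hx ⊢
    exact hx
  · have himg : (fun x : Fin d → ℤ => f (fun i => (x i : ℝ))) ''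
        {x : Fin d → ℤ | (fun i => (x i : ℝ)) ∈ {x : Fin d → ℝ | ‖f x‖ ≤ s}} =
        (S L hL s : Set E) := by
      ext w
      rw [Set.mem_image, Finset.mem_coe]
      constructor
      · rintro ⟨x, hx, rfl⟩
        rw [Set.mem_ofPred_eq, Set.mem_ofPred_eq] at hx
        exact (mem_S L hL _ _).2 ⟨hfL x, hx⟩
      · intro hw
        obtain ⟨x, hx⟩ := hSx w hw
        refine ⟨x, ?_, hx⟩
        rw [Set.mem_ofPred_eq, Set.mem_ofPred_eq, hx]
        exact ((mem_S L hL _ _).1 hw).2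
    rw [← Set.ncard_image_of_injective _ hginj, himg, Set.ncard_coe_finset]
  · intro x y hx hy hxy
    rw [Set.mem_ofPred_eq] at hx hy
    have h1 : (f (fun i => (x i : ℝ))) ∈ S L hL s := (mem_S L hL _ _).2 ⟨hfL x, hx⟩
    have h2 : (f (fun i => (y i : ℝ))) ∈ S L hL s := (mem_S L hL _ _).2 ⟨hfL y, hy⟩
    have h3 := hinj _ h1 _ h2 (by rw [hπf, hπf, hxy])
    exact hginj h3
  · intro w hw
    obtain ⟨x, hx⟩ := hSx w hw
    refine ⟨x, ?_, ?_⟩
    · rw [Set.mem_ofPred_eq, hx]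
      exact ((mem_S L hL _ _).1 hw).2
    · rw [← hx, hπf]

end Abs

end Pool.Agent.OST
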