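import Pool.Agent.OSP_h95.Group

/-!
# Choice of the number of steps, and the size of the ball with a general `lam`
-/

set_option autoImplicit false

namespace Pool.Agent.OST

open Finset Real Pool.Agent.QFR Pool.Agent.OSP
open scoped Pointwise

/-- Choice of the number of steps (compare `OSP.exists_steps`).  Take `lam₀ ≤ 1/100` with
`(1 + lam₀) < (5/3) ^ (ε / 2)` (real power, greater than `1`; continuity or Bernoulli), and for
`y ≥ 1` the least `j` with `(3/5) ^ j * y ≤ 1`.  As `(1 + 1/100) / 2 ≤ 3/5` the first claim holds.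
For `j ≥ 1`, minimality gives `y > (5/3) ^ (j - 1)`, so `y ^ ε ≥ (5/3) ^ (ε (j - 1))`, and
`j (1 + lam₀) ^ j ≤ CJ (5/3) ^ (ε (j - 1))` because
`j * ((1 + lam₀) * (5/3) ^ (-ε)) ^ j` is bounded (`(1 + lam₀) (5/3)^(-ε) < 1`, see
`tendsto_pow_const_mul_const_pow_of_abs_lt_one`).  For `j = 0` the left side is `0`. -/
theorem exists_steps_eps (ε : ℝ) (hε : 0 < ε) : ∃ lam₀ : ℝ, 0 < lam₀ ∧ lam₀ ≤ 1 / 100 ∧
    ∃ CJ : ℝ, 1 ≤ CJ ∧ ∀ y : ℝ, 1 ≤ y → ∃ j : ℕ,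
      ((1 + 1 / 100) / 2) ^ j * y ≤ 1 ∧ (j : ℝ) * (1 + lam₀) ^ j ≤ CJ * y ^ ε := by
  obtain ⟨s, hs⟩ : ∃ s : ℝ, s = (5 / 3 : ℝ) ^ ε := ⟨_, rfl⟩
  have hs1 : 1 < s := by rw [hs]; exact Real.one_lt_rpow (by norm_num) hε
  have hs0 : 0 < s := by linarith
  obtain ⟨lam, hlam⟩ : ∃ lam : ℝ, lam = min (1 / 100) ((s - 1) / 2) := ⟨_, rfl⟩
  have hlam0 : 0 < lam := by rw [hlam]; exact lt_min (by norm_num) (by linarith)
  have hlam1 : lam ≤ 1 / 100 := by rw [hlam]; exact min_le_left _ _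
  have hlam2 : lam ≤ (s - 1) / 2 := by rw [hlam]; exact min_le_right _ _
  have hr1 : (1 + lam) / s < 1 := by rw [div_lt_one hs0]; linarith
  have hr0 : 0 < (1 + lam) / s := by positivity
  have hb : ∃ M : ℝ, ∀ n : ℕ, (n : ℝ) * ((1 + lam) / s) ^ n ≤ M := by
    have h1 := tendsto_pow_const_mul_const_pow_of_abs_lt_one 1
      (r := (1 + lam) / s) (by rw [abs_of_pos hr0]; exact hr1)
    obtain ⟨M, hM⟩ := h1.bddAbove_range
    refine ⟨M, fun n => ?_⟩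
    have h2 := hM ⟨n, rfl⟩
    simp only [pow_one] at h2
    exact h2
  obtain ⟨M, hM⟩ := hb
  refine ⟨lam, hlam0, hlam1, max 1 (s * M), le_max_left _ _, ?_⟩
  intro y hy
  have hy0 : 0 < y := by linarith
  have hex : ∃ j : ℕ, (3 / 5 : ℝ) ^ j * y ≤ 1 := by
    obtain ⟨j, hj⟩ := exists_pow_lt_of_lt_one (show (0 : ℝ) < 1 / y by positivity)
      (show (3 / 5 : ℝ) < 1 by norm_num)
    refine ⟨j, ?_⟩
    rw [lt_div_iff₀ (by linarith)] at hj
    exact hj.le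
  classical
  obtain ⟨j, hj, hmin⟩ : ∃ j : ℕ, (3 / 5 : ℝ) ^ j * y ≤ 1 ∧
      ∀ i < j, ¬ (3 / 5 : ℝ) ^ i * y ≤ 1 :=
    ⟨Nat.find hex, Nat.find_spec hex, fun i hi => Nat.find_min hex hi⟩
  refine ⟨j, ?_, ?_⟩
  · refine le_trans ?_ hj
    have : ((1 + 1 / 100) / 2 : ℝ) ^ j ≤ (3 / 5) ^ j :=
      pow_le_pow_left₀ (by norm_num) (by norm_num) j
    gcongr
  · have h2 : 1 ≤ 5 / 3 * ((3 / 5 : ℝ) ^ j * y) := by
      rcases j with _ | j
      · simp only [pow_zero]; linarith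
      · have h3 := hmin j (by omega)
        push Not at h3
        rw [pow_succ]
        linarith
    have h4 : 1 ≤ s * (s⁻¹ ^ j * y ^ ε) := by
      have h5 := Real.one_le_rpow h2 hε.le
      rw [Real.mul_rpow (by norm_num) (by positivity), Real.mul_rpow (by positivity) hy0.le,
        ← Real.rpow_natCast (3 / 5 : ℝ) j, ← Real.rpow_mul (by norm_num), mul_comm (j : ℝ) ε,
        Real.rpow_mul (by norm_num), Real.rpow_natCast,
        show (3 / 5 : ℝ) = (5 / 3)⁻¹ by norm_num, Real.inv_rpow (by norm_num), ← hs] at h5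
      exact h5
    have h6 : 0 ≤ (j : ℝ) * (1 + lam) ^ j := by positivity
    have hye : 0 < y ^ ε := Real.rpow_pos_of_pos hy0 ε
    calc (j : ℝ) * (1 + lam) ^ j
        ≤ (j : ℝ) * (1 + lam) ^ j * (s * (s⁻¹ ^ j * y ^ ε)) := le_mul_of_one_le_right h6 h4
      _ = s * ((j : ℝ) * ((1 + lam) / s) ^ j) * y ^ ε := by
          rw [div_eq_mul_inv, mul_pow]
          ring
      _ ≤ s * M * y ^ ε := by
          have := hM j
          gcongr
      _ ≤ max 1 (s * M) * y ^ ε := by gcongr; exact le_max_right _ _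

/-- the ball of radius `R₀` around `0` is large: proof of `OSP.big_ball` with `(1 + lam) ^ j` kept
(in the proof there, `e5` becomes trivial). -/
theorem big_ball2 {G : Type} [AddCommGroup G] [Fintype G] (X T : Fam G) {lam δ κ q R₀ D : ℝ}
    (h0 : 0 ≤ lam) (h1 : lam ≤ 1 / 100) (hδ : 0 ≤ δ) (hκ : dbl T ≤ κ) (hM : Mini T lam δ)
    (hX1 : (X.add T).H - X.H ≤ q) (hX2 : (X.add T).H - T.H ≤ q) (hR : 0 < R₀) (j : ℕ)
    (hj : ((1 + 1 / 100) / 2) ^ j * κ ≤ R₀ ^ 2 / 16) (hδ1 : 2 * δ ≤ R₀ ^ 2 / 16)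
    (hδ2 : 2 ^ (j + 2) * δ ≤ 1) (hD : 2 * κ * ((j : ℝ) * (1 + lam) ^ j) ≤ D) :
    X.H - 2 * (2 + 2 * q + D) ≤ Real.log (hball T R₀).card := by
  have hκ0 : 0 ≤ κ := (dbl_nonneg T).trans hκ
  obtain ⟨n, hn1, hn2⟩ := exists_W T h0 (by linarith) hδ hκ hM j
  have e1 : ((1 + lam) / 2) ^ j * κ ≤ ((1 + 1 / 100) / 2) ^ j * κ := by
    gcongr
  have e2 := log_ball_ge X T (W T n) hR (hball T R₀) (fun D h => (mem_hball _ _ _).2 h)
    (by linarith)
  have e3 : (X.add (W T n)).H ≤ (X.add T).H :=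
    ((Refines.refl X).add (W_refines T n)).H_le
  have e4 : X.H ≤ (X.add T).H := H_le_add_left X T
  have e5 : 2 * κ * j * (1 + lam) ^ j ≤ D := le_trans (le_of_eq (by ring)) hD
  have hlog := Real.log_two_lt_d9
  linarith

end Pool.Agent.OST
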